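import Mathlib
import Pool.Agent.Helper49.Sq.Core

/-!
# Corners of arbitrary angle with Lyapunov legs: statements of the steps
-/

set_option autoImplicit false
open MeasureTheory Filter Topology Set
open Pool.Agent.Helper49.Sq.Defs (mu truncCauchy)
open Pool.Agent.Helper49.Sq.Core (L2 IsCauchyOp)

namespace Pool.Agent.Y664.CR

/-- On the parameter interval `(a, b)` the curve is a Lyapunov arc, in arc length. -/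
structure Leg (γ : ℝ → ℂ) (a b α C : ℝ) : Prop where
  hab : a < b
  ha : -2 ≤ a
  hb : b ≤ 2
  hα : 0 < α
  hC : 0 ≤ C
  small : C * (b - a) ^ α ≤ 1 / 2
  lip : LipschitzWith 1 γ
  diff : ∀ s ∈ Ioo a b, DifferentiableAt ℝ γ s
  unit : ∀ s ∈ Ioo a b, ‖deriv γ s‖ = 1
  hol : ∀ s ∈ Ioo a b, ∀ t ∈ Ioo a b, ‖deriv γ t - deriv γ s‖ ≤ C * |t - s| ^ α

/-- `γ` has at the parameter `0` the one-sided tangents `v` (incoming) and `w` (outgoing). -/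
structure Cor (γ : ℝ → ℂ) (v w : ℂ) (δ α C : ℝ) : Prop where
  left : Leg γ (-δ) 0 α C
  right : Leg γ 0 δ α C
  tv : Tendsto (deriv γ) (𝓝[<] 0) (𝓝 v)
  tw : Tendsto (deriv γ) (𝓝[>] 0) (𝓝 w)
  hv : ‖v‖ = 1
  hw : ‖w‖ = 1
  ne : v ≠ w
  nn : v ≠ -w

/-- K: the kernel on a leg. -/
def S_ker : Prop := ∀ (γ : ℝ → ℂ) (a b α C : ℝ), Leg γ a b α C → ∀ s ∈ Ioo a b, ∀ t ∈ Ioo a b,
  |t - s| / 2 ≤ ‖γ t - γ s‖ ∧ ‖γ t - γ s‖ ≤ |t - s| ∧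
  (t ≠ s → ‖deriv γ t / (γ t - γ s) - (((t - s)⁻¹ : ℝ) : ℂ)‖ ≤ 2 * C * |t - s| ^ (α - 1)) ∧
  ‖deriv γ t - deriv γ s‖ ≤ 2 * C * |t - s| ^ (α - 1) * ‖γ t - γ s‖

/-- D: uniform bound of the truncated integrals of a Lipschitz function supported inside a leg. -/
def S_dom : Prop := ∀ (γ : ℝ → ℂ) (a b α C : ℝ), Leg γ a b α C → ∀ (f : ℝ → ℂ) (K : NNReal),
  LipschitzWith K f → ∀ p q : ℝ, a < p → p < q → q < b → (∀ s, f s ≠ 0 → s ∈ Icc p q) →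
  ∃ M δ0 : ℝ, 0 < δ0 ∧ ∀ δ : ℝ, 0 < δ → δ < δ0 → ∀ s ∈ Icc p q, ‖truncCauchy γ δ f s‖ ≤ M

/-- F: the truncated quadratic form of a real function supported inside a leg is small. -/
def S_fub : Prop := ∀ (γ : ℝ → ℂ) (a b α C : ℝ), Leg γ a b α C → ∀ (f : ℝ → ℝ) (K : NNReal) (G : ℝ),
  LipschitzWith K f → (∀ x, |f x| ≤ G) → ∀ p q : ℝ, a < p → p < q → q < b →
  (∀ s, f s ≠ 0 → s ∈ Icc p q) → ∀ δ : ℝ, 0 < δ →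
  ‖∫ s, (f s : ℂ) * truncCauchy γ δ (fun x => (f x : ℂ)) s ∂mu‖ ≤ G ^ 2 * C * (q - p) * (q - p) ^ α / α

/-- G: hence the quadratic form of `S` is small. -/
def S_diag : Prop := ∀ (γ : ℝ → ℂ) (a b α C : ℝ), Leg γ a b α C → ∀ (f : ℝ → ℝ) (K : NNReal) (G : ℝ),
  LipschitzWith K f → (∀ x, |f x| ≤ G) → ∀ p q : ℝ, a < p → p < q → q < b →
  (∀ s, f s ≠ 0 → s ∈ Icc p q) → ∀ S : L2 →L[ℂ] L2, IsCauchyOp γ S → ∀ F : L2,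
  (F : ℝ → ℂ) =ᵐ[mu] (fun x => (f x : ℂ)) →
  ‖(inner ℂ F (S F) : ℂ)‖ ≤ G ^ 2 * C * (q - p) * (q - p) ^ α / α

/-- the profile functions (as in `Helper49.Sq.Test2`) -/
structure Pf (u : ℝ → ℝ) : Prop where
  lip : ∃ K, LipschitzWith K u
  supp : ∀ x, u x ≠ 0 → 1 / 8 ≤ x ∧ x ≤ 7 / 8

/-- the cross integral -/
noncomputable def JJ (v w : ℂ) (g η : ℝ → ℝ) : ℂ :=
  ∫ x : ℝ, (g x : ℂ) * ∫ y : ℝ, (η y : ℂ) / ((x : ℂ) * w + (y : ℂ) * v)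

/-- X1: the pairing of a test function on the outgoing leg with the transform of one on the
incoming leg; `R_m = 8 ^ m`. -/
def S_x1 : Prop := ∀ (γ : ℝ → ℂ) (v w : ℂ) (δ α C : ℝ), Cor γ v w δ α C → ∀ (g η : ℝ → ℝ), Pf g → Pf η →
  ∀ S : L2 →L[ℂ] L2, IsCauchyOp γ S → ∀ U V : ℕ → L2,
  (∀ m, (U m : ℝ → ℂ) =ᵐ[mu] fun s => (g ((8 : ℝ) ^ m * s) : ℂ)) →
  (∀ m, (V m : ℝ → ℂ) =ᵐ[mu] fun s => (η (-((8 : ℝ) ^ m * s)) : ℂ)) →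
  Tendsto (fun m => (((8 : ℝ) ^ m : ℝ) : ℂ) * (inner ℂ (U m) (S (V m)) : ℂ)) atTop
    (𝓝 (Complex.I * v * JJ v w g η / Real.pi))

/-- X2: the other pairing. -/
def S_x2 : Prop := ∀ (γ : ℝ → ℂ) (v w : ℂ) (δ α C : ℝ), Cor γ v w δ α C → ∀ (g η : ℝ → ℝ), Pf g → Pf η →
  ∀ S : L2 →L[ℂ] L2, IsCauchyOp γ S → ∀ U V : ℕ → L2,
  (∀ m, (U m : ℝ → ℂ) =ᵐ[mu] fun s => (g ((8 : ℝ) ^ m * s) : ℂ)) →
  (∀ m, (V m : ℝ → ℂ) =ᵐ[mu] fun s => (η (-((8 : ℝ) ^ m * s)) : ℂ)) →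
  Tendsto (fun m => (((8 : ℝ) ^ m : ℝ) : ℂ) * (inner ℂ (V m) (S (U m)) : ℂ)) atTop
    (𝓝 (-(Complex.I * w * JJ v w g η) / Real.pi))

/-- A: the algebraic contradiction; `r = sqrt (Im tp * Im tm)`. -/
def S_alg : Prop := ∀ (tp tm v w J1 J2 : ℂ) (ε N k A B : ℝ), 0 < ε → 0 < N → 0 < k → B < A →
  ‖v‖ = 1 → ‖w‖ = 1 → v ≠ w → v ≠ -w →
  J1 = k * (starRingEnd ℂ w + starRingEnd ℂ v) →
  J2 = A * starRingEnd ℂ w + B * starRingEnd ℂ v →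
  0 < tp.im → 0 < tm.im →
  ‖(tp * (Complex.I * v * J1) + starRingEnd ℂ (tm * (-(Complex.I * w * J1)))) / Real.pi‖ ^ 2
    ≤ 4 * (ε * tp.im * N) * (ε * tm.im * N) →
  ‖(tp * (Complex.I * v * J2) + starRingEnd ℂ (tm * (-(Complex.I * w * J2)))) / Real.pi‖ ^ 2
    ≤ 4 * (ε * tp.im * N) * (ε * tm.im * N) →
  (A - B) / 2 * ‖v - w‖ ≤ ε * (Real.pi * N * (1 + |(A + B) / 2| / k))

/-- I: the cross integral in terms of two positive integrals, for continuous profiles. -/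
def S_int : Prop := ∀ (v w : ℂ), ‖v‖ = 1 → ‖w‖ = 1 → v ≠ -w → ∀ (g η : ℝ → ℝ), Pf g → Pf η →
  (∀ x, 0 ≤ g x) → (∀ x, 0 ≤ η x) → (∃ x, g x ≠ 0) → (∃ x, η x ≠ 0) →
  (∃ k : ℝ, 0 < k ∧ JJ v w g g = k * (starRingEnd ℂ w + starRingEnd ℂ v)) ∧
  ∃ A B : ℝ, JJ v w g η = A * starRingEnd ℂ w + B * starRingEnd ℂ v ∧
    ((∀ x y, g x ≠ 0 → η y ≠ 0 → y < x) → B < A)

end Pool.Agent.Y664.CR
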