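import Mathlib
import Pool.Agent.Y664.CR.Stm

set_option autoImplicit false
open MeasureTheory Filter Topology Set

namespace Pool.Agent.Y664.CR

theorem t_alg : S_alg := by
  intro tp tm v w J1 J2 ε N k A B hε hN hk hAB hv hw hne hnn hJ1 hJ2 hp hq h1 h2
  set p := tp.im with hpdef
  set q := tm.im with hqdef
  obtain ⟨r, hr⟩ : ∃ r, r = Real.sqrt (p * q) := ⟨_, rfl⟩
  have hr0 : 0 < r := by rw [hr]; exact Real.sqrt_pos.mpr (mul_pos hp hq)
  have hrr : r^2 = p * q := by rw [hr]; exact Real.sq_sqrt (mul_pos hp hq).le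
  have hpi := Real.pi_pos
  have hpn : ‖(Real.pi : ℂ)‖ = Real.pi := by
    rw [Complex.norm_real, Real.norm_eq_abs, abs_of_pos hpi]
  have hb : ∀ M : ℂ, ‖M / (Real.pi : ℂ)‖^2 ≤ 4 * (ε * p * N) * (ε * q * N) →
      ‖M‖ ≤ 2 * ε * N * r * Real.pi := by
    intro M hM
    have : ‖M / (Real.pi : ℂ)‖^2 ≤ (2 * ε * N * r)^2 := by
      calc ‖M / (Real.pi : ℂ)‖^2 ≤ 4 * (ε * p * N) * (ε * q * N) := hM
        _ = 4 * ε^2 * N^2 * (p * q) := by ring
        _ = (2 * ε * N * r)^2 := by rw [← hrr]; ring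
    have h3 := (sq_le_sq₀ (norm_nonneg _) (by positivity)).mp this
    rw [norm_div, hpn, div_le_iff₀ hpi] at h3
    exact h3
  have b1 := hb _ h1
  have b2 := hb _ h2
  have hww : w * starRingEnd ℂ w = 1 := by
    rw [Complex.mul_conj, Complex.normSq_eq_norm_sq, hw]; simp
  have hvv : v * starRingEnd ℂ v = 1 := by
    rw [Complex.mul_conj, Complex.normSq_eq_norm_sq, hv]; simp
  obtain ⟨z, hz⟩ : ∃ z, z = v * starRingEnd ℂ w := ⟨_, rfl⟩
  obtain ⟨u, hu⟩ : ∃ u, u = tp + starRingEnd ℂ tm := ⟨_, rfl⟩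
  obtain ⟨d, hd⟩ : ∃ d, d = tp - starRingEnd ℂ tm := ⟨_, rfl⟩
  have hz1 : ‖z - 1‖ = ‖v - w‖ := by
    have h3 : z - 1 = (v - w) * starRingEnd ℂ w := by
      rw [sub_mul, hww, hz]
    rw [h3, norm_mul, RCLike.norm_conj, hw, mul_one]
  have hgen : ∀ (A B : ℝ) (J : ℂ), J = A * starRingEnd ℂ w + B * starRingEnd ℂ v →
      tp * (Complex.I * v * J) + starRingEnd ℂ (tm * (-(Complex.I * w * J))) =
        Complex.I * (((A + B) / 2 : ℝ) * (1 + z) * u + ((A - B) / 2 : ℝ) * (z - 1) * d) := by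
    intro A B J hJ
    have hww' : starRingEnd ℂ w * w = 1 := by rw [mul_comm]; exact hww
    have e1 : Complex.I * v * J = Complex.I * (A * z + B) := by
      rw [hJ, hz]
      calc Complex.I * v * (A * starRingEnd ℂ w + B * starRingEnd ℂ v)
          = Complex.I * (A * (v * starRingEnd ℂ w) + B * (v * starRingEnd ℂ v)) := by ring
        _ = _ := by rw [hvv, mul_one]
    have e2 : starRingEnd ℂ (tm * (-(Complex.I * w * J))) = Complex.I * starRingEnd ℂ tm * (A + B * z) := by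
      rw [hJ, hz]
      simp only [map_mul, map_neg, map_add, Complex.conj_I, Complex.conj_ofReal, Complex.conj_conj]
      calc starRingEnd ℂ tm * -(-Complex.I * starRingEnd ℂ w * (A * w + B * v))
          = Complex.I * starRingEnd ℂ tm * (A * (starRingEnd ℂ w * w) + B * (v * starRingEnd ℂ w)) := by ring
        _ = _ := by rw [hww', mul_one]
    rw [e1, e2, hu, hd]
    push_cast
    ring
  have n1 : k * ‖(1 + z) * u‖ ≤ 2 * ε * N * r * Real.pi := by
    have e := hgen k k J1 (by rw [hJ1]; ring)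
    have e' : tp * (Complex.I * v * J1) + starRingEnd ℂ (tm * (-(Complex.I * w * J1))) =
        Complex.I * ((k : ℂ) * ((1 + z) * u)) := by
      rw [e]
      push_cast
      ring
    rw [e', norm_mul, norm_mul, Complex.norm_I, one_mul, Complex.norm_real, Real.norm_eq_abs,
      abs_of_pos hk] at b1
    exact b1
  have hβ : 0 < (A - B) / 2 := by linarith
  have n2 : (A - B) / 2 * ‖v - w‖ * ‖d‖ ≤ 2 * ε * N * r * Real.pi + |(A + B) / 2| * ‖(1 + z) * u‖ := by
    have e := hgen A B J2 hJ2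
    rw [e, norm_mul, Complex.norm_I, one_mul] at b2
    have e3 : (((A - B) / 2 : ℝ) : ℂ) * (z - 1) * d =
        (((A + B) / 2 : ℝ) * (1 + z) * u + ((A - B) / 2 : ℝ) * (z - 1) * d) - ((A + B) / 2 : ℝ) * ((1 + z) * u) := by
      ring
    have e4 : ‖(((A - B) / 2 : ℝ) : ℂ) * (z - 1) * d‖ = (A - B) / 2 * ‖v - w‖ * ‖d‖ := by
      rw [norm_mul, norm_mul, hz1, Complex.norm_real, Real.norm_eq_abs, abs_of_pos hβ]
    rw [← e4, e3]
    refine (norm_sub_le _ _).trans ?_
    have e5 : ‖(((A + B) / 2 : ℝ) : ℂ) * ((1 + z) * u)‖ = |(A + B) / 2| * ‖(1 + z) * u‖ := by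
      rw [norm_mul, Complex.norm_real, Real.norm_eq_abs]
    rw [e5]
    linarith
  have n1' : ‖(1 + z) * u‖ ≤ 2 * ε * N * r * Real.pi / k := by
    rw [le_div_iff₀ hk]; linarith
  have n3 : 2 * r ≤ ‖d‖ := by
    have h3 : d.im = p + q := by simp [hd, hpdef, hqdef]
    have h4 : |d.im| ≤ ‖d‖ := Complex.abs_im_le_norm d
    rw [h3, abs_of_pos (by positivity)] at h4
    have h5 : 2 * r ≤ p + q := by
      have : (2 * r)^2 ≤ (p + q)^2 := by
        rw [mul_pow, hrr]; nlinarith [sq_nonneg (p - q)]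
      exact (sq_le_sq₀ (by positivity) (by positivity)).mp this
    linarith
  have n4 : (A - B) / 2 * ‖v - w‖ * (2 * r) ≤ (A - B) / 2 * ‖v - w‖ * ‖d‖ := by gcongr
  have n5 : |(A + B) / 2| * ‖(1 + z) * u‖ ≤ |(A + B) / 2| * (2 * ε * N * r * Real.pi / k) := by gcongr
  have n6 : (A - B) / 2 * ‖v - w‖ * (2 * r) ≤ ε * (Real.pi * N * (1 + |(A + B) / 2| / k)) * (2 * r) := by
    calc (A - B) / 2 * ‖v - w‖ * (2 * r)
        ≤ 2 * ε * N * r * Real.pi + |(A + B) / 2| * (2 * ε * N * r * Real.pi / k) := by linarith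
      _ = ε * (Real.pi * N * (1 + |(A + B) / 2| / k)) * (2 * r) := by field_simp
  exact le_of_mul_le_mul_right n6 (by positivity)

end Pool.Agent.Y664.CR
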