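import Mathlib
import Pool.Agent.Y664.CR.Stm

set_option autoImplicit false
open MeasureTheory Filter Topology Set
open Pool.Agent.Helper49.Sq.Defs (mu truncCauchy)
open Pool.Agent.Helper49.Sq.Core (L2 IsCauchyOp)

namespace Pool.Agent.Y664.CR

lemma meas_trunc {γ : ℝ → ℂ} (hγ : Continuous γ) {f : ℝ → ℂ} (hf : Continuous f) (δ : ℝ) :
    Measurable (fun s => truncCauchy γ δ f s) := by
  unfold truncCauchy
  apply Measurable.const_mul
  have e : ∀ s : ℝ, ∫ σ in Ioc (-2 : ℝ) 2 ∩ {σ | δ < ‖γ σ - γ s‖}, f σ * deriv γ σ / (γ σ - γ s) =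
      ∫ σ in Ioc (-2 : ℝ) 2, ({p : ℝ × ℝ | δ < ‖γ p.2 - γ p.1‖}.indicator
        (fun p : ℝ × ℝ => f p.2 * deriv γ p.2 / (γ p.2 - γ p.1)) (s, σ)) := by
    intro s
    have hm : MeasurableSet {σ : ℝ | δ < ‖γ σ - γ s‖} := by
      apply measurableSet_lt measurable_const
      fun_prop
    rw [← setIntegral_indicator hm]
    rfl
  simp_rw [e]
  apply StronglyMeasurable.measurable
  apply StronglyMeasurable.integral_prod_right
    (f := fun s σ => ({p : ℝ × ℝ | δ < ‖γ p.2 - γ p.1‖}.indicator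
        (fun p : ℝ × ℝ => f p.2 * deriv γ p.2 / (γ p.2 - γ p.1)) (s, σ)))
  apply Measurable.stronglyMeasurable
  have hd : Measurable (deriv γ) := measurable_deriv γ
  have hm2 : MeasurableSet {p : ℝ × ℝ | δ < ‖γ p.2 - γ p.1‖} := by
    apply measurableSet_lt measurable_const
    fun_prop
  have : Measurable (fun p : ℝ × ℝ => f p.2 * deriv γ p.2 / (γ p.2 - γ p.1)) := by
    have h1 := hγ.measurable
    have h2 := hf.measurable
    fun_prop
  exact this.indicator hm2

theorem t_diag (hd : S_dom) (hf : S_fub) : S_diag := by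
  intro γ a b α C hL f K G hK hG p q hap hpq hqb hsupp S hS F hF
  have e1 : (inner ℂ F (S F) : ℂ) = ∫ s, (f s : ℂ) * (S F : ℝ → ℂ) s ∂mu := by
    rw [L2.inner_def]
    apply integral_congr_ae
    filter_upwards [hF] with s hs
    rw [hs, RCLike.inner_apply, Complex.conj_ofReal, mul_comm]
  have hKc : LipschitzWith K (fun x => (f x : ℂ)) := by
    have := Complex.isometry_ofReal.lipschitz.comp hK
    rw [one_mul] at this
    exact this
  have hz : ∀ s, s ∉ Icc p q → f s = 0 := fun s hs => by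
    by_contra h
    exact hs (hsupp s h)
  have h2 : (fun x => (f x : ℂ)) (-2) = (fun x => (f x : ℂ)) 2 := by
    have ha := hL.ha
    have hb := hL.hb
    have z1 : f (-2) = 0 := hz _ fun h => by linarith [h.1]
    have z2 : f 2 = 0 := hz _ fun h => by linarith [h.2]
    simp only [z1, z2]
  obtain ⟨M, δ0, hδ0, hM⟩ := hd γ a b α C hL _ K hKc p q hap hpq hqb (fun s hs => hsupp s (by
    intro h; apply hs; rw [h]; simp))
  obtain ⟨e, he, he1, he0⟩ : ∃ e : ℕ → ℝ, (∀ n, 0 < e n) ∧ (∀ n, e n < δ0) ∧ Tendsto e atTop (𝓝 0) := by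
    refine ⟨fun n => δ0 / 2 * (1 / ((n : ℝ) + 1)), fun n => by positivity, fun n => ?_, ?_⟩
    · have h1 : 1 / ((n : ℝ) + 1) ≤ 1 := by
        rw [div_le_one (by positivity)]
        linarith [Nat.cast_nonneg (α := ℝ) n]
      calc δ0 / 2 * (1 / ((n : ℝ) + 1)) ≤ δ0 / 2 * 1 := by gcongr
        _ < δ0 := by linarith
    · have := (tendsto_one_div_add_atTop_nhds_zero_nat (𝕜 := ℝ)).const_mul (δ0 / 2)
      simpa using this
  have hM0 : 0 ≤ M := le_trans (norm_nonneg _) (hM (e 0) (he 0) (he1 0) p ⟨le_refl _, hpq.le⟩)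
  have hG0 : 0 ≤ G := (abs_nonneg _).trans (hG 0)
  have lim : Tendsto (fun n => ∫ s, (f s : ℂ) * truncCauchy γ (e n) (fun x => (f x : ℂ)) s ∂mu) atTop
      (𝓝 (∫ s, (f s : ℂ) * (S F : ℝ → ℂ) s ∂mu)) := by
    apply tendsto_integral_of_dominated_convergence (fun _ => G * M)
    · intro n
      apply Measurable.aestronglyMeasurable
      have h1 := meas_trunc hL.lip.continuous hKc.continuous (e n)
      have h3 := hKc.continuous.measurable
      exact h3.mul h1
    · exact integrable_const _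
    · intro n
      refine Filter.Eventually.of_forall fun s => ?_
      by_cases hs : s ∈ Icc p q
      · rw [norm_mul, Complex.norm_real, Real.norm_eq_abs]
        exact mul_le_mul (hG s) (hM _ (he n) (he1 n) s hs) (norm_nonneg _) hG0
      · rw [hz s hs]
        simp only [Complex.ofReal_zero, zero_mul, norm_zero]
        positivity
    · filter_upwards [hS _ ⟨K, hKc⟩ h2 F hF] with s hs
      apply Tendsto.const_mul
      apply hs.comp
      rw [tendsto_nhdsWithin_iff]
      exact ⟨he0, Filter.Eventually.of_forall fun n => he n⟩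
  rw [e1]
  exact le_of_tendsto lim.norm (Filter.Eventually.of_forall fun n =>
    hf γ a b α C hL f K G hK hG p q hap hpq hqb hsupp (e n) (he n))

end Pool.Agent.Y664.CR
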