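import Mathlib
import Pool.Agent.Y664.CR.Stm

set_option autoImplicit false
open MeasureTheory Filter Topology Set
open Pool.Agent.Helper49.Sq.Defs (mu truncCauchy)
open Pool.Agent.Helper49.Sq.Core (L2 IsCauchyOp)

namespace Pool.Agent.Y664.CR

/-- the weakly singular integral -/
lemma weak_int {α : ℝ} (hα : 0 < α) (s p q : ℝ) (hp : p ≤ s) (hq : s ≤ q) :
    IntegrableOn (fun σ : ℝ => |σ - s| ^ (α - 1)) (Icc p q) ∧
      ∫ σ in Icc p q, |σ - s| ^ (α - 1) ≤ 2 * (q - p) ^ α / α := by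
  have hα1 : -1 < α - 1 := by linarith
  -- right half
  have r1 : IntervalIntegrable (fun σ : ℝ => (σ - s) ^ (α - 1)) volume s q := by
    have h := (intervalIntegral.intervalIntegrable_rpow' (a := 0) (b := q - s) hα1).comp_sub_right s
    simpa using h
  have r2 : ∫ σ in s..q, (σ - s) ^ (α - 1) = (q - s) ^ α / α := by
    rw [intervalIntegral.integral_comp_sub_right (fun x => x ^ (α - 1)) s, sub_self,
      integral_rpow (Or.inl hα1)]
    rw [sub_add_cancel, Real.zero_rpow hα.ne', sub_zero]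
  have l1 : IntervalIntegrable (fun σ : ℝ => (s - σ) ^ (α - 1)) volume p s := by
    have h := (intervalIntegral.intervalIntegrable_rpow' (a := s - p) (b := 0) hα1).comp_sub_left s
    simpa using h
  have l2 : ∫ σ in p..s, (s - σ) ^ (α - 1) = (s - p) ^ α / α := by
    rw [intervalIntegral.integral_comp_sub_left (fun x => x ^ (α - 1)) s, sub_self,
      integral_rpow (Or.inl hα1)]
    rw [sub_add_cancel, Real.zero_rpow hα.ne', sub_zero]
  have r3 : IntegrableOn (fun σ : ℝ => |σ - s| ^ (α - 1)) (Ioc s q) := by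
    have h := (intervalIntegrable_iff_integrableOn_Ioc_of_le hq).mp r1
    refine h.congr_fun (fun σ hσ => ?_) measurableSet_Ioc
    simp only
    rw [abs_of_pos (by linarith [hσ.1])]
  have l3 : IntegrableOn (fun σ : ℝ => |σ - s| ^ (α - 1)) (Ioc p s) := by
    have h := (intervalIntegrable_iff_integrableOn_Ioc_of_le hp).mp l1
    refine h.congr_fun (fun σ hσ => ?_) measurableSet_Ioc
    simp only
    rw [abs_of_nonpos (by linarith [hσ.2]), neg_sub]
  have un : Ioc p q = Ioc p s ∪ Ioc s q := (Ioc_union_Ioc_eq_Ioc hp hq).symm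
  have hI : IntegrableOn (fun σ : ℝ => |σ - s| ^ (α - 1)) (Ioc p q) := by
    rw [un]
    exact l3.union r3
  refine ⟨(integrableOn_Icc_iff_integrableOn_Ioc (by simp)).mpr hI, ?_⟩
  rw [integral_Icc_eq_integral_Ioc, un, setIntegral_union
    (Set.disjoint_left.mpr fun x h1 h2 => absurd h1.2 (not_le.mpr h2.1)) measurableSet_Ioc l3 r3]
  have e1 : ∫ σ in Ioc p s, |σ - s| ^ (α - 1) = (s - p) ^ α / α := by
    rw [← l2, intervalIntegral.integral_of_le hp]
    apply setIntegral_congr_fun measurableSet_Ioc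
    intro σ hσ
    simp only
    rw [abs_of_nonpos (by linarith [hσ.2]), neg_sub]
  have e2 : ∫ σ in Ioc s q, |σ - s| ^ (α - 1) = (q - s) ^ α / α := by
    rw [← r2, intervalIntegral.integral_of_le hq]
    apply setIntegral_congr_fun measurableSet_Ioc
    intro σ hσ
    simp only
    rw [abs_of_pos (by linarith [hσ.1])]
  rw [e1, e2]
  have m1 : (s - p) ^ α ≤ (q - p) ^ α := Real.rpow_le_rpow (by linarith) (by linarith) hα.le
  have m2 : (q - s) ^ α ≤ (q - p) ^ α := Real.rpow_le_rpow (by linarith) (by linarith) hα.le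
  rw [← add_div]
  apply div_le_div_of_nonneg_right _ hα.le
  linarith

/-- the truncated kernel -/
noncomputable def tk (γ : ℝ → ℂ) (δ : ℝ) (f : ℝ → ℝ) (t : ℝ → ℂ) (p : ℝ × ℝ) : ℂ :=
  {p : ℝ × ℝ | δ < ‖γ p.2 - γ p.1‖}.indicator
    (fun p : ℝ × ℝ => (f p.1 : ℂ) * (f p.2 : ℂ) * t p.2 / (γ p.2 - γ p.1)) p

theorem t_fub (hk : S_ker) : S_fub := by
  intro γ a b α C hL f K G hK hG p q hap hpq hqb hsupp δ hδ
  have hG0 : 0 ≤ G := (abs_nonneg _).trans (hG 0)
  have hfc := hK.continuous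
  have hγc := hL.lip.continuous
  have hdm : Measurable (deriv γ) := measurable_deriv γ
  have hdb : ∀ x, ‖deriv γ x‖ ≤ 1 := fun x => by
    have := norm_deriv_le_of_lipschitz (x₀ := x) hL.lip
    simpa using this
  have hz : ∀ s, s ∉ Icc p q → f s = 0 := fun s hs => by
    by_contra h
    exact hs (hsupp s h)
  set ν : Measure ℝ := volume.restrict (Icc p q) with hν
  have hsub : Icc p q ⊆ Ioc (-2 : ℝ) 2 := fun x hx => by
    have ha := hL.ha
    have hb := hL.hb
    exact ⟨by linarith [hx.1], by linarith [hx.2]⟩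
  have hset : MeasurableSet {p : ℝ × ℝ | δ < ‖γ p.2 - γ p.1‖} := by
    apply measurableSet_lt measurable_const
    fun_prop
  -- reduction to a double integral
  have e1 : ∫ s, (f s : ℂ) * truncCauchy γ δ (fun x => (f x : ℂ)) s ∂mu =
      (1 / ((Real.pi : ℂ) * Complex.I)) * ∫ s, ∫ σ, tk γ δ f (deriv γ) (s, σ) ∂ν ∂ν := by
    rw [← integral_const_mul]
    have h1 : ∫ s, (f s : ℂ) * truncCauchy γ δ (fun x => (f x : ℂ)) s ∂mu =
        ∫ s, (f s : ℂ) * truncCauchy γ δ (fun x => (f x : ℂ)) s ∂ν := by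
      apply setIntegral_eq_of_subset_of_forall_sdiff_eq_zero measurableSet_Ioc hsub
      intro x hx
      rw [hz x hx.2]
      simp
    rw [h1]
    congr 1
    funext s
    unfold truncCauchy
    rw [← mul_assoc, mul_comm (f s : ℂ), mul_assoc]
    congr 1
    have hm : MeasurableSet {σ : ℝ | δ < ‖γ σ - γ s‖} := by
      apply measurableSet_lt measurable_const
      fun_prop
    rw [← integral_const_mul, ← setIntegral_indicator hm]
    have h2 : ∀ σ : ℝ, {σ : ℝ | δ < ‖γ σ - γ s‖}.indicator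
        (fun σ => (f s : ℂ) * ((f σ : ℂ) * deriv γ σ / (γ σ - γ s))) σ = tk γ δ f (deriv γ) (s, σ) := by
      intro σ
      unfold tk
      by_cases h : δ < ‖γ σ - γ s‖
      · rw [indicator_of_mem (show σ ∈ {σ : ℝ | δ < ‖γ σ - γ s‖} from h),
          indicator_of_mem (show (s, σ) ∈ {p : ℝ × ℝ | δ < ‖γ p.2 - γ p.1‖} from h)]
        ring
      · rw [indicator_of_notMem (show σ ∉ {σ : ℝ | δ < ‖γ σ - γ s‖} from h),
          indicator_of_notMem (show (s, σ) ∉ {p : ℝ × ℝ | δ < ‖γ p.2 - γ p.1‖} from h)]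
    simp_rw [h2]
    apply setIntegral_eq_of_subset_of_forall_sdiff_eq_zero measurableSet_Ioc hsub
    intro x hx
    unfold tk
    rw [indicator_apply_eq_zero]
    intro _
    simp only
    rw [hz x hx.2]
    simp
  -- integrability
  have hint : ∀ t : ℝ → ℂ, Measurable t → (∀ x, ‖t x‖ ≤ 1) →
      Integrable (fun P : ℝ × ℝ => tk γ δ f t P) (ν.prod ν) ∧
      Integrable (fun P : ℝ × ℝ => tk γ δ f (fun _ => t P.1) P) (ν.prod ν) := by
    intro t ht htb
    have hb : ∀ (P : ℝ × ℝ) (z : ℂ), ‖z‖ ≤ 1 →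
        ‖{p : ℝ × ℝ | δ < ‖γ p.2 - γ p.1‖}.indicator
          (fun p : ℝ × ℝ => (f p.1 : ℂ) * (f p.2 : ℂ) * z / (γ p.2 - γ p.1)) P‖ ≤ G * G * 1 / δ := by
      intro P z hz1
      by_cases h : δ < ‖γ P.2 - γ P.1‖
      · rw [indicator_of_mem (show P ∈ {p : ℝ × ℝ | δ < ‖γ p.2 - γ p.1‖} from h), norm_div, norm_mul,
          norm_mul, Complex.norm_real, Complex.norm_real, Real.norm_eq_abs, Real.norm_eq_abs]
        have g1 := hG P.1
        have g2 := hG P.2
        gcongr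
      · rw [indicator_of_notMem (show P ∉ {p : ℝ × ℝ | δ < ‖γ p.2 - γ p.1‖} from h), norm_zero]
        positivity
    constructor
    · refine Integrable.of_bound (C := G * G * 1 / δ) ?_ (Filter.Eventually.of_forall fun P => ?_)
      · apply Measurable.aestronglyMeasurable
        unfold tk
        have h1 := hγc.measurable
        have h2 := hfc.measurable
        refine Measurable.indicator ?_ hset
        fun_prop
      · have := hb P (t P.2) (htb _)
        unfold tk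
        by_cases h : P ∈ {p : ℝ × ℝ | δ < ‖γ p.2 - γ p.1‖}
        · rw [indicator_of_mem h] at this ⊢
          exact this
        · rw [indicator_of_notMem h] at this ⊢
          exact this
    · refine Integrable.of_bound (C := G * G * 1 / δ) ?_ (Filter.Eventually.of_forall fun P => ?_)
      · apply Measurable.aestronglyMeasurable
        have h1 := hγc.measurable
        have h2 := hfc.measurable
        have e : (fun P : ℝ × ℝ => tk γ δ f (fun _ => t P.1) P) =
            {p : ℝ × ℝ | δ < ‖γ p.2 - γ p.1‖}.indicator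
              (fun p : ℝ × ℝ => (f p.1 : ℂ) * (f p.2 : ℂ) * t p.1 / (γ p.2 - γ p.1)) := by
          funext P
          unfold tk
          by_cases h : P ∈ {p : ℝ × ℝ | δ < ‖γ p.2 - γ p.1‖}
          · rw [indicator_of_mem h, indicator_of_mem h]
          · rw [indicator_of_notMem h, indicator_of_notMem h]
        rw [e]
        refine Measurable.indicator ?_ hset
        fun_prop
      · exact hb P (t P.1) (htb _)
  obtain ⟨i1, i2⟩ := hint (deriv γ) hdm hdb
  -- antisymmetry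
  have e2 : ∫ s, ∫ σ, tk γ δ f (deriv γ) (s, σ) ∂ν ∂ν =
      - ∫ s, ∫ σ, tk γ δ f (fun _ => deriv γ s) (s, σ) ∂ν ∂ν := by
    have hsw := integral_integral_swap (μ := ν) (ν := ν) (f := fun s σ => tk γ δ f (deriv γ) (s, σ)) i1
    rw [hsw, ← integral_neg]
    congr 1
    funext s
    rw [← integral_neg]
    congr 1
    funext σ
    unfold tk
    by_cases h : δ < ‖γ σ - γ s‖
    · have h' : δ < ‖γ s - γ σ‖ := by rw [norm_sub_rev]; exact h
      rw [indicator_of_mem (show (σ, s) ∈ {p : ℝ × ℝ | δ < ‖γ p.2 - γ p.1‖} from h'),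
        indicator_of_mem (show (s, σ) ∈ {p : ℝ × ℝ | δ < ‖γ p.2 - γ p.1‖} from h)]
      simp only
      rw [← neg_sub (γ σ) (γ s), div_neg]
      ring
    · have h' : ¬ δ < ‖γ s - γ σ‖ := by rw [norm_sub_rev]; exact h
      rw [indicator_of_notMem (show (σ, s) ∉ {p : ℝ × ℝ | δ < ‖γ p.2 - γ p.1‖} from h'),
        indicator_of_notMem (show (s, σ) ∉ {p : ℝ × ℝ | δ < ‖γ p.2 - γ p.1‖} from h), neg_zero]
  set I0 : ℂ := ∫ s, ∫ σ, tk γ δ f (deriv γ) (s, σ) ∂ν ∂ν with hI0
  have e3 : 2 * I0 = ∫ s, ∫ σ, (tk γ δ f (deriv γ) (s, σ) - tk γ δ f (fun _ => deriv γ s) (s, σ)) ∂ν ∂ν := by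
    have h1 : ∫ s, ∫ σ, (tk γ δ f (deriv γ) (s, σ) - tk γ δ f (fun _ => deriv γ s) (s, σ)) ∂ν ∂ν =
        I0 - ∫ s, ∫ σ, tk γ δ f (fun _ => deriv γ s) (s, σ) ∂ν ∂ν :=
      integral_integral_sub (μ := ν) (ν := ν) i1 i2
    rw [h1, two_mul]
    nth_rewrite 2 [e2]
    rw [sub_eq_add_neg]
  -- pointwise bound
  have hpt : ∀ s ∈ Icc p q, ∀ σ ∈ Icc p q,
      ‖tk γ δ f (deriv γ) (s, σ) - tk γ δ f (fun _ => deriv γ s) (s, σ)‖ ≤
        G ^ 2 * (2 * C) * |σ - s| ^ (α - 1) := by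
    intro s hs σ hσ
    have hC := hL.hC
    have hr : 0 ≤ |σ - s| ^ (α - 1) := Real.rpow_nonneg (abs_nonneg _) _
    unfold tk
    by_cases h : δ < ‖γ σ - γ s‖
    · rw [indicator_of_mem (show (s, σ) ∈ {p : ℝ × ℝ | δ < ‖γ p.2 - γ p.1‖} from h),
        indicator_of_mem (show (s, σ) ∈ {p : ℝ × ℝ | δ < ‖γ p.2 - γ p.1‖} from h)]
      simp only
      have h4 := (hk γ a b α C hL s ⟨by linarith [hs.1], by linarith [hs.2]⟩ σ
        ⟨by linarith [hσ.1], by linarith [hσ.2]⟩).2.2.2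
      have e : (f s : ℂ) * (f σ : ℂ) * deriv γ σ / (γ σ - γ s) - (f s : ℂ) * (f σ : ℂ) * deriv γ s / (γ σ - γ s)
          = (f s : ℂ) * (f σ : ℂ) * (deriv γ σ - deriv γ s) / (γ σ - γ s) := by ring
      have hp : 0 < ‖γ σ - γ s‖ := hδ.trans h
      rw [e, norm_div, norm_mul, norm_mul, Complex.norm_real, Complex.norm_real, Real.norm_eq_abs,
        Real.norm_eq_abs, div_le_iff₀ hp]
      have g1 := hG s
      have g2 := hG σ
      calc |f s| * |f σ| * ‖deriv γ σ - deriv γ s‖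
          ≤ G * G * (2 * C * |σ - s| ^ (α - 1) * ‖γ σ - γ s‖) := by gcongr
        _ = _ := by ring
    · rw [indicator_of_notMem (show (s, σ) ∉ {p : ℝ × ℝ | δ < ‖γ p.2 - γ p.1‖} from h),
        indicator_of_notMem (show (s, σ) ∉ {p : ℝ × ℝ | δ < ‖γ p.2 - γ p.1‖} from h), sub_zero, norm_zero]
      positivity
  have hin : ∀ s ∈ Icc p q, ‖∫ σ, (tk γ δ f (deriv γ) (s, σ) - tk γ δ f (fun _ => deriv γ s) (s, σ)) ∂ν‖ ≤
      G ^ 2 * (2 * C) * (2 * (q - p) ^ α / α) := by
    intro s hs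
    obtain ⟨w1, w2⟩ := weak_int hL.hα s p q hs.1 hs.2
    have hC := hL.hC
    calc ‖∫ σ, (tk γ δ f (deriv γ) (s, σ) - tk γ δ f (fun _ => deriv γ s) (s, σ)) ∂ν‖
        ≤ ∫ σ, G ^ 2 * (2 * C) * |σ - s| ^ (α - 1) ∂ν := by
          apply norm_integral_le_of_norm_le (w1.const_mul _)
          filter_upwards [ae_restrict_mem measurableSet_Icc] with σ hσ
          exact hpt s hs σ hσ
      _ = G ^ 2 * (2 * C) * ∫ σ in Icc p q, |σ - s| ^ (α - 1) := integral_const_mul _ _
      _ ≤ _ := by gcongr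
  have hI : ‖2 * I0‖ ≤ G ^ 2 * (2 * C) * (2 * (q - p) ^ α / α) * (q - p) := by
    rw [e3]
    have h1 := norm_setIntegral_le_of_norm_le_const (μ := volume) (s := Icc p q) (by simp) hin
    refine h1.trans (le_of_eq ?_)
    simp [Measure.real, hpq.le]
  rw [e1, norm_mul]
  have hpi := Real.pi_gt_three
  have hpn : ‖(1 / ((Real.pi : ℂ) * Complex.I))‖ = 1 / Real.pi := by
    rw [norm_div, norm_mul, Complex.norm_real, Complex.norm_I, Real.norm_eq_abs, abs_of_pos Real.pi_pos]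
    simp
  rw [hpn]
  rw [norm_mul] at hI
  have h2 : ‖(2 : ℂ)‖ = 2 := by simp
  rw [h2] at hI
  have hC := hL.hC
  have hX : 0 ≤ G ^ 2 * C * (q - p) * (q - p) ^ α / α := by
    have h1 : 0 ≤ q - p := by linarith
    have h2 := hL.hα
    have h3 : 0 ≤ (q - p) ^ α := Real.rpow_nonneg h1 _
    positivity
  have hI' : ‖I0‖ ≤ 2 * (G ^ 2 * C * (q - p) * (q - p) ^ α / α) := by
    have e : G ^ 2 * (2 * C) * (2 * (q - p) ^ α / α) * (q - p) =
        4 * (G ^ 2 * C * (q - p) * (q - p) ^ α / α) := by ring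
    rw [e] at hI
    linarith
  rw [one_div, inv_mul_le_iff₀ Real.pi_pos]
  nlinarith

end Pool.Agent.Y664.CR
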