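import Mathlib
import Pool.Agent.Helper49.Sq.Pv
import Pool.Agent.Y664.CR.Fub

set_option autoImplicit false
open MeasureTheory Filter Topology Set
open Pool.Agent.Helper49.Sq.Defs (mu truncCauchy)
open Pool.Agent.Helper49.Sq.Core (L2 IsCauchyOp)

namespace Pool.Agent.Y664.CR

theorem t_dom (hk : S_ker) : S_dom := by
  intro γ a b α C hL f K hK p q hap hpq hqb hsupp
  have hfc := hK.continuous
  have hγc := hL.lip.continuous
  have hC := hL.hC
  have hα := hL.hα
  have hdm : Measurable (deriv γ) := measurable_deriv γ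
  have hdb : ∀ x, ‖deriv γ x‖ ≤ 1 := fun x => by
    have := norm_deriv_le_of_lipschitz (x₀ := x) hL.lip
    simpa using this
  have hz : ∀ s, s ∉ Icc p q → f s = 0 := fun s hs => by
    by_contra h
    exact hs (hsupp s h)
  obtain ⟨G0, hG0⟩ := (isCompact_Icc (a := p) (b := q)).exists_bound_of_continuousOn hfc.continuousOn
  obtain ⟨G, hG1, hG⟩ : ∃ G : ℝ, 0 ≤ G ∧ ∀ x, ‖f x‖ ≤ G := by
    refine ⟨max G0 0, le_max_right _ _, fun x => ?_⟩
    by_cases hx : x ∈ Icc p q
    · exact (hG0 x hx).trans (le_max_left _ _)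
    · rw [hz x hx, norm_zero]
      exact le_max_right _ _
  obtain ⟨c, hc⟩ : ∃ c, c = min (p - a) (b - q) / 2 := ⟨_, rfl⟩
  have hc0 : 0 < c := by
    rw [hc]
    have : 0 < min (p - a) (b - q) := lt_min (by linarith) (by linarith)
    linarith
  have hca : a < p - c := by
    have := min_le_left (p - a) (b - q)
    have h2 : 0 < min (p - a) (b - q) := lt_min (by linarith) (by linarith)
    rw [hc]
    linarith
  have hcb : q + c < b := by
    have := min_le_right (p - a) (b - q)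
    have h2 : 0 < min (p - a) (b - q) := lt_min (by linarith) (by linarith)
    rw [hc]
    linarith
  obtain ⟨p', hp'⟩ : ∃ p', p' = p - c := ⟨_, rfl⟩
  obtain ⟨q', hq'⟩ : ∃ q', q' = q + c := ⟨_, rfl⟩
  rw [← hp'] at hca
  rw [← hq'] at hcb
  have hpq' : p' < q' := by linarith
  refine ⟨G * (2 * C) * (2 * (q' - p') ^ α / α) + K * (q' - p') +
    G * ((Real.log (q' - p') - Real.log c) + 4), c / 2, by positivity, ?_⟩
  intro δ hδ hδc s hs
  have hs1 : p' + c ≤ s := by linarith [hs.1]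
  have hs2 : s ≤ q' - c := by linarith [hs.2]
  have hsab : s ∈ Ioo a b := ⟨by linarith, by linarith⟩
  have hker : ∀ σ ∈ Ioc p' q', |σ - s| / 2 ≤ ‖γ σ - γ s‖ ∧ ‖γ σ - γ s‖ ≤ |σ - s| ∧
      (σ ≠ s → ‖deriv γ σ / (γ σ - γ s) - (((σ - s)⁻¹ : ℝ) : ℂ)‖ ≤ 2 * C * |σ - s| ^ (α - 1)) := by
    intro σ hσ
    have := hk γ a b α C hL s hsab σ ⟨by linarith [hσ.1], by linarith [hσ.2]⟩
    exact ⟨this.1, this.2.1, this.2.2.1⟩
  have hfarm : MeasurableSet {σ : ℝ | δ < ‖γ σ - γ s‖} := by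
    apply measurableSet_lt measurable_const
    fun_prop
  obtain ⟨W, hW⟩ : ∃ W : Set ℝ, W = Ioc p' q' ∩ {σ : ℝ | δ < ‖γ σ - γ s‖} := ⟨_, rfl⟩
  have hWm : MeasurableSet W := by rw [hW]; exact measurableSet_Ioc.inter hfarm
  have hWv : volume W ≤ ENNReal.ofReal (q' - p') := by
    rw [hW, ← Real.volume_Ioc]
    exact measure_mono inter_subset_left
  have hWfin : volume W ≠ ⊤ := ne_top_of_le_ne_top ENNReal.ofReal_ne_top hWv
  have hWr : volume.real W ≤ q' - p' := by
    have := ENNReal.toReal_mono ENNReal.ofReal_ne_top hWv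
    rwa [ENNReal.toReal_ofReal (by linarith)] at this
  have hWne : ∀ σ ∈ W, δ < |σ - s| ∧ σ ≠ s ∧ σ ∈ Ioc p' q' ∧ δ < ‖γ σ - γ s‖ := by
    intro σ hσ
    rw [hW] at hσ
    have h1 := hker σ hσ.1
    have h2 : δ < ‖γ σ - γ s‖ := hσ.2
    have h3 : δ < |σ - s| := lt_of_lt_of_le h2 h1.2.1
    refine ⟨h3, ?_, hσ.1, h2⟩
    intro h
    rw [h, sub_self, abs_zero] at h3
    linarith
  -- reduction
  have e0 : ∫ σ in Ioc (-2 : ℝ) 2 ∩ {σ | δ < ‖γ σ - γ s‖}, f σ * deriv γ σ / (γ σ - γ s) =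
      ∫ σ in W, f σ * deriv γ σ / (γ σ - γ s) := by
    rw [hW]
    have ha := hL.ha
    have hb := hL.hb
    apply setIntegral_eq_of_subset_of_forall_sdiff_eq_zero (measurableSet_Ioc.inter hfarm)
    · intro x hx
      exact ⟨⟨by linarith [hx.1.1], by linarith [hx.1.2]⟩, hx.2⟩
    · intro x hx
      have : x ∉ Icc p q := fun h => hx.2 ⟨⟨by linarith [h.1], by linarith [h.2]⟩, hx.1.2⟩
      rw [hz x this]
      simp
  -- integrability
  have i1 : IntegrableOn (fun σ => f σ * (deriv γ σ / (γ σ - γ s) - (((σ - s)⁻¹ : ℝ) : ℂ))) W := by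
    apply Measure.integrableOn_of_bounded (M := G * (1 / δ + 1 / δ)) hWfin
    · apply Measurable.aestronglyMeasurable
      have h1 := hγc.measurable
      have h2 := hfc.measurable
      fun_prop
    · filter_upwards [ae_restrict_mem hWm] with σ hσ
      obtain ⟨w1, w2, w3, w4⟩ := hWne σ hσ
      rw [norm_mul]
      apply mul_le_mul (hG σ) _ (norm_nonneg _) hG1
      refine (norm_sub_le _ _).trans ?_
      rw [norm_div, Complex.norm_real, norm_inv, Real.norm_eq_abs]
      have h5 : ‖deriv γ σ‖ / ‖γ σ - γ s‖ ≤ 1 / δ := by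
        apply div_le_div₀ zero_le_one (hdb σ) hδ w4.le
      have h6 : |σ - s|⁻¹ ≤ 1 / δ := by
        rw [one_div]
        exact inv_anti₀ hδ w1.le
      linarith
  have i2 : IntegrableOn (fun σ => (f σ - f s) * (((σ - s)⁻¹ : ℝ) : ℂ)) W := by
    apply Measure.integrableOn_of_bounded (M := (K : ℝ)) hWfin
    · apply Measurable.aestronglyMeasurable
      have h2 := hfc.measurable
      fun_prop
    · filter_upwards [ae_restrict_mem hWm] with σ hσ
      have := Pool.Agent.Helper49.Sq.Pv.quot_bound hK s σ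
      rw [Complex.ofReal_inv, ← div_eq_mul_inv]
      exact this
  have i3r : IntegrableOn (fun σ => (σ - s)⁻¹) W := by
    apply Measure.integrableOn_of_bounded (M := 1 / δ) hWfin
    · apply Measurable.aestronglyMeasurable
      fun_prop
    · filter_upwards [ae_restrict_mem hWm] with σ hσ
      obtain ⟨w1, w2, w3, w4⟩ := hWne σ hσ
      rw [norm_inv, Real.norm_eq_abs, one_div]
      exact inv_anti₀ hδ w1.le
  have i3 : IntegrableOn (fun σ => f s * (((σ - s)⁻¹ : ℝ) : ℂ)) W := (i3r.ofReal (𝕜 := ℂ)).const_mul (f s)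
  -- splitting
  have e1 : ∫ σ in W, f σ * deriv γ σ / (γ σ - γ s) =
      (∫ σ in W, f σ * (deriv γ σ / (γ σ - γ s) - (((σ - s)⁻¹ : ℝ) : ℂ))) +
      ((∫ σ in W, (f σ - f s) * (((σ - s)⁻¹ : ℝ) : ℂ)) + ∫ σ in W, f s * (((σ - s)⁻¹ : ℝ) : ℂ)) := by
    have h1 := integral_add i2 i3
    have h2 := integral_add i1 (i2.add i3)
    simp only [Pi.add_apply] at h2
    rw [← h1, ← h2]
    congr 1
    funext σ
    ring
  -- bounds
  have b1 : ‖∫ σ in W, f σ * (deriv γ σ / (γ σ - γ s) - (((σ - s)⁻¹ : ℝ) : ℂ))‖ ≤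
      G * (2 * C) * (2 * (q' - p') ^ α / α) := by
    obtain ⟨w1, w2⟩ := weak_int hα s p' q' (by linarith) (by linarith)
    have hWI : W ⊆ Icc p' q' := by
      rw [hW]
      exact fun x hx => ⟨hx.1.1.le, hx.1.2⟩
    calc ‖∫ σ in W, f σ * (deriv γ σ / (γ σ - γ s) - (((σ - s)⁻¹ : ℝ) : ℂ))‖
        ≤ ∫ σ in W, G * (2 * C) * |σ - s| ^ (α - 1) := by
          apply norm_integral_le_of_norm_le ((w1.mono_set hWI).const_mul _)
          filter_upwards [ae_restrict_mem hWm] with σ hσ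
          obtain ⟨v1, v2, v3, v4⟩ := hWne σ hσ
          rw [norm_mul]
          have h7 := (hker σ v3).2.2 v2
          calc ‖f σ‖ * ‖deriv γ σ / (γ σ - γ s) - (((σ - s)⁻¹ : ℝ) : ℂ)‖
              ≤ G * (2 * C * |σ - s| ^ (α - 1)) := mul_le_mul (hG σ) h7 (norm_nonneg _) hG1
            _ = _ := by ring
      _ = G * (2 * C) * ∫ σ in W, |σ - s| ^ (α - 1) := integral_const_mul _ _
      _ ≤ G * (2 * C) * ∫ σ in Icc p' q', |σ - s| ^ (α - 1) := by
          apply mul_le_mul_of_nonneg_left _ (by positivity)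
          apply setIntegral_mono_set w1
          · exact Filter.Eventually.of_forall fun x => Real.rpow_nonneg (abs_nonneg _) _
          · exact hWI.eventuallyLE
      _ ≤ _ := by gcongr
  have b2 : ‖∫ σ in W, (f σ - f s) * (((σ - s)⁻¹ : ℝ) : ℂ)‖ ≤ K * (q' - p') := by
    have h1 := norm_setIntegral_le_of_norm_le_const (μ := volume) (s := W) (C := (K : ℝ))
      (f := fun σ => (f σ - f s) * (((σ - s)⁻¹ : ℝ) : ℂ)) (lt_top_iff_ne_top.mpr hWfin) (fun σ _ => by
        have := Pool.Agent.Helper49.Sq.Pv.quot_bound hK s σ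
        rw [Complex.ofReal_inv, ← div_eq_mul_inv]
        exact this)
    refine h1.trans ?_
    exact mul_le_mul_of_nonneg_left hWr K.2
  have b3 : |∫ σ in W, (σ - s)⁻¹| ≤ (Real.log (q' - p') - Real.log c) + 4 := by
    obtain ⟨V, hV⟩ : ∃ V : Set ℝ, V = Ioc p' q' ∩ {σ : ℝ | 2 * δ < |σ - s|} := ⟨_, rfl⟩
    have hVm : MeasurableSet V := by
      rw [hV]
      exact measurableSet_Ioc.inter (Pool.Agent.Helper49.Sq.Pv.measurableSet_far _ _)
    have hVW : V ⊆ W := by
      rw [hV, hW]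
      intro σ hσ
      refine ⟨hσ.1, ?_⟩
      have h1 := (hker σ hσ.1).1
      have h2 : 2 * δ < |σ - s| := hσ.2
      show δ < ‖γ σ - γ s‖
      linarith
    obtain ⟨v1, v2⟩ := Pool.Agent.Helper49.Sq.Pv.int_inv_far (a := p') (b := q') (s := s) (δ := 2 * δ)
      (by positivity) (by linarith) (by linarith)
    rw [← hV] at v1 v2
    have hsplit : ∫ σ in W, (σ - s)⁻¹ = (∫ σ in V, (σ - s)⁻¹) + ∫ σ in W \ V, (σ - s)⁻¹ := by
      have hu : W = V ∪ (W \ V) := (union_sdiff_cancel hVW).symm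
      nth_rewrite 1 [hu]
      exact setIntegral_union disjoint_sdiff_right (hWm.diff hVm) v1 (i3r.mono_set sdiff_subset)
    have h4 : |∫ σ in W \ V, (σ - s)⁻¹| ≤ 4 := by
      have hsub : W \ V ⊆ Icc (s - 2 * δ) (s + 2 * δ) := by
        intro σ hσ
        have h5 : ¬ 2 * δ < |σ - s| := fun h => hσ.2 (by rw [hV]; exact ⟨(hWne σ hσ.1).2.2.1, h⟩)
        rw [not_lt, abs_le] at h5
        exact ⟨by linarith [h5.1], by linarith [h5.2]⟩
      have hv : volume (W \ V) ≤ ENNReal.ofReal (4 * δ) := by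
        refine (measure_mono hsub).trans ?_
        rw [Real.volume_Icc]
        apply ENNReal.ofReal_le_ofReal
        linarith
      have h6 := norm_setIntegral_le_of_norm_le_const (μ := volume) (s := W \ V) (C := 1 / δ)
        (f := fun σ : ℝ => (σ - s)⁻¹) (lt_of_le_of_lt hv ENNReal.ofReal_lt_top) (fun σ hσ => by
          obtain ⟨w1, w2, w3, w4⟩ := hWne σ hσ.1
          rw [norm_inv, Real.norm_eq_abs, one_div]
          exact inv_anti₀ hδ w1.le)
      rw [Real.norm_eq_abs] at h6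
      refine h6.trans ?_
      have h7 : volume.real (W \ V) ≤ 4 * δ := by
        have := ENNReal.toReal_mono ENNReal.ofReal_ne_top hv
        rwa [ENNReal.toReal_ofReal (by positivity)] at this
      calc 1 / δ * volume.real (W \ V) ≤ 1 / δ * (4 * δ) := by gcongr
        _ = 4 := by field_simp
    have h8 : |∫ σ in V, (σ - s)⁻¹| ≤ Real.log (q' - p') - Real.log c := by
      rw [v2, Real.log_div (by linarith) (by linarith)]
      have l1 : Real.log c ≤ Real.log (q' - s) := Real.log_le_log hc0 (by linarith)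
      have l2 : Real.log (q' - s) ≤ Real.log (q' - p') := Real.log_le_log (by linarith) (by linarith)
      have l3 : Real.log c ≤ Real.log (s - p') := Real.log_le_log hc0 (by linarith)
      have l4 : Real.log (s - p') ≤ Real.log (q' - p') := Real.log_le_log (by linarith) (by linarith)
      rw [abs_le]
      constructor <;> linarith
    rw [hsplit]
    exact (abs_add_le _ _).trans (add_le_add h8 h4)
  have b3' : ‖∫ σ in W, f s * (((σ - s)⁻¹ : ℝ) : ℂ)‖ ≤ G * ((Real.log (q' - p') - Real.log c) + 4) := by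
    rw [integral_const_mul, norm_mul, integral_complex_ofReal, Complex.norm_real, Real.norm_eq_abs]
    exact mul_le_mul (hG s) b3 (abs_nonneg _) hG1
  unfold truncCauchy
  rw [e0, e1, norm_mul]
  have hpi := Real.pi_gt_three
  have hpn : ‖(1 / ((Real.pi : ℂ) * Complex.I))‖ ≤ 1 := by
    rw [norm_div, norm_mul, Complex.norm_real, Complex.norm_I, Real.norm_eq_abs, abs_of_pos Real.pi_pos]
    simp only [norm_one, mul_one]
    rw [div_le_one Real.pi_pos]
    linarith
  refine (mul_le_of_le_one_left (norm_nonneg _) hpn).trans ?_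
  refine (norm_add_le _ _).trans ?_
  have h9 := norm_add_le (∫ σ in W, (f σ - f s) * (((σ - s)⁻¹ : ℝ) : ℂ)) (∫ σ in W, f s * (((σ - s)⁻¹ : ℝ) : ℂ))
  linarith

end Pool.Agent.Y664.CR
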