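import Mathlib
import Pool.Agent.Y664.CR.Stm

set_option autoImplicit false
open MeasureTheory Filter Topology Set
open Pool.Agent.Helper49.Sq.Defs (mu truncCauchy)
open Pool.Agent.Helper49.Sq.Core (L2 IsCauchyOp)

namespace Pool.Agent.Y664.CR

theorem t_ker : S_ker := by
  intro γ a b α C hL s hs t ht
  have hab := hL.hab
  have key : ‖γ t - γ s - (t - s) • deriv γ t‖ ≤ C * |t - s| ^ α * |t - s| := by
    have hsub : uIcc s t ⊆ Ioo a b := by
      intro x hx
      rcases le_total s t with h | h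
      · rw [uIcc_of_le h] at hx
        exact ⟨lt_of_lt_of_le hs.1 hx.1, lt_of_le_of_lt hx.2 ht.2⟩
      · rw [uIcc_of_ge h] at hx
        exact ⟨lt_of_lt_of_le ht.1 hx.1, lt_of_le_of_lt hx.2 hs.2⟩
    have hd : ∀ x ∈ uIcc s t, HasDerivWithinAt (fun x : ℝ => γ x - x • deriv γ t)
        (deriv γ x - deriv γ t) (uIcc s t) x := by
      intro x hx
      have h1 := (hL.diff x (hsub hx)).hasDerivAt
      have h2 : HasDerivAt (fun x : ℝ => x • deriv γ t) ((1 : ℝ) • deriv γ t) x :=
        (hasDerivAt_id x).smul_const (deriv γ t)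
      rw [one_smul] at h2
      exact (h1.sub h2).hasDerivWithinAt
    have hbd : ∀ x ∈ uIcc s t, ‖deriv γ x - deriv γ t‖ ≤ C * |t - s| ^ α := by
      intro x hx
      refine (hL.hol t ht x (hsub hx)).trans ?_
      apply mul_le_mul_of_nonneg_left _ hL.hC
      apply Real.rpow_le_rpow (abs_nonneg _) _ hL.hα.le
      rw [abs_sub_comm x t]
      rw [abs_sub_comm t x]
      rcases le_total s t with h | h
      · rw [uIcc_of_le h] at hx
        rw [abs_le, abs_of_nonneg (by linarith)]
        constructor <;> linarith [hx.1, hx.2]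
      · rw [uIcc_of_ge h] at hx
        rw [abs_le, abs_of_nonpos (by linarith : t - s ≤ 0)]
        constructor <;> linarith [hx.1, hx.2]
    have hmv := Convex.norm_image_sub_le_of_norm_hasDerivWithin_le hd hbd (convex_uIcc s t)
      left_mem_uIcc right_mem_uIcc
    rw [Real.norm_eq_abs] at hmv
    refine le_trans (le_of_eq ?_) hmv
    congr 1
    rw [sub_smul]
    abel
  have hsm : C * |t - s| ^ α ≤ 1 / 2 := by
    refine le_trans ?_ hL.small
    apply mul_le_mul_of_nonneg_left _ hL.hC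
    apply Real.rpow_le_rpow (abs_nonneg _) _ hL.hα.le
    rw [abs_le]
    constructor <;> linarith [hs.1, hs.2, ht.1, ht.2]
  have hu : ‖(t - s) • deriv γ t‖ = |t - s| := by
    rw [norm_smul, hL.unit t ht, Real.norm_eq_abs, mul_one]
  have hlow : |t - s| / 2 ≤ ‖γ t - γ s‖ := by
    have h1 : ‖(t - s) • deriv γ t‖ ≤ ‖γ t - γ s‖ + ‖γ t - γ s - (t - s) • deriv γ t‖ := by
      have h2 : (t - s) • deriv γ t = (γ t - γ s) - (γ t - γ s - (t - s) • deriv γ t) := by abel
      calc ‖(t - s) • deriv γ t‖ = ‖(γ t - γ s) - (γ t - γ s - (t - s) • deriv γ t)‖ := by rw [← h2]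
        _ ≤ _ := norm_sub_le _ _
    rw [hu] at h1
    have h3 : C * |t - s| ^ α * |t - s| ≤ 1 / 2 * |t - s| :=
      mul_le_mul_of_nonneg_right hsm (abs_nonneg _)
    linarith
  have hup : ‖γ t - γ s‖ ≤ |t - s| := by
    have := hL.lip.dist_le_mul t s
    rw [dist_eq_norm, Real.dist_eq] at this
    simpa using this
  refine ⟨hlow, hup, ?_, ?_⟩
  · intro hne
    have hd0 : 0 < |t - s| := abs_pos.mpr (sub_ne_zero.mpr hne)
    have hg0 : 0 < ‖γ t - γ s‖ := by linarith
    have hgc : γ t - γ s ≠ 0 := norm_pos_iff.mp hg0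
    have htc : ((t - s : ℝ) : ℂ) ≠ 0 := by
      rw [Complex.ofReal_ne_zero]
      exact sub_ne_zero.mpr hne
    have e : deriv γ t / (γ t - γ s) - (((t - s)⁻¹ : ℝ) : ℂ) =
        -(γ t - γ s - (t - s) • deriv γ t) / ((γ t - γ s) * ((t - s : ℝ) : ℂ)) := by
      rw [Complex.real_smul, Complex.ofReal_inv]
      field_simp
      ring
    rw [e, norm_div, norm_neg, norm_mul, Complex.norm_real, Real.norm_eq_abs,
      div_le_iff₀ (by positivity)]
    refine key.trans ?_
    have e2 : |t - s| ^ α = |t - s| ^ (α - 1) * |t - s| := by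
      rw [← Real.rpow_add_one hd0.ne']
      congr 1
      ring
    rw [e2]
    have hp : 0 ≤ |t - s| ^ (α - 1) := Real.rpow_nonneg (abs_nonneg _) _
    have hC := hL.hC
    have h5 : C * |t - s| ^ (α - 1) * |t - s| * (|t - s|) ≤ C * |t - s| ^ (α - 1) * |t - s| * (2 * ‖γ t - γ s‖) := by
      apply mul_le_mul_of_nonneg_left (by linarith) (by positivity)
    calc C * (|t - s| ^ (α - 1) * |t - s|) * |t - s| = C * |t - s| ^ (α - 1) * |t - s| * |t - s| := by ring
      _ ≤ _ := h5
      _ = _ := by ring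
  · by_cases hne : t = s
    · rw [hne]
      simp
    · have hd0 : 0 < |t - s| := abs_pos.mpr (sub_ne_zero.mpr hne)
      have e2 : |t - s| ^ α = |t - s| ^ (α - 1) * |t - s| := by
        rw [← Real.rpow_add_one hd0.ne']
        congr 1
        ring
      refine (hL.hol s hs t ht).trans ?_
      rw [e2]
      have hp : 0 ≤ |t - s| ^ (α - 1) := Real.rpow_nonneg (abs_nonneg _) _
      have hC := hL.hC
      calc C * (|t - s| ^ (α - 1) * |t - s|) = C * |t - s| ^ (α - 1) * |t - s| := by ring
        _ ≤ C * |t - s| ^ (α - 1) * (2 * ‖γ t - γ s‖) := by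
            apply mul_le_mul_of_nonneg_left (by linarith) (by positivity)
        _ = _ := by ring

end Pool.Agent.Y664.CR
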