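import Mathlib
import Pool.Agent.Helper49.Sq.Test7
import Pool.Agent.Y664.CR.Stm

set_option autoImplicit false
open MeasureTheory Filter Topology Set
open scoped NNReal ENNReal
open Pool.Agent.Helper49.Sq.Core
open Pool.Agent.Helper49.Sq.Test2 Pool.Agent.Helper49.Sq.Test3 Pool.Agent.Helper49.Sq.Test4
open Pool.Agent.Helper49.Sq.Defs (mu truncCauchy IsPC Condition3)

namespace Pool.Agent.Y664.CR

/-- the limiting quadratic form -/
noncomputable def QF (ε : ℝ) (tp tm : ℂ) (Ng Nη : ℝ) (K1 K2 x y : ℂ) : ℂ :=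
  tp * (-(ε : ℂ) * Complex.I * (‖x‖^2 * Ng : ℝ) + starRingEnd ℂ x * y * K1) +
  tm * (-(ε : ℂ) * Complex.I * (‖y‖^2 * Nη : ℝ) + starRingEnd ℂ y * x * K2)

lemma mul_conj_norm (z : ℂ) : starRingEnd ℂ z * z = ((‖z‖^2 : ℝ) : ℂ) := by
  rw [mul_comm, Complex.mul_conj, Complex.normSq_eq_norm_sq]

/-- the form on the test vectors -/
noncomputable def PP (A : L2 →L[ℂ] L2) {g η : ℝ → ℝ} (hg : Prof g) (hη : Prof η) (x y tp tm : ℂ) (m : ℕ) : ℂ :=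
  (starRingEnd ℂ ((Real.sqrt (Rm m) : ℂ) * x)) * (tp * inner ℂ (Ug hg (Rm m)) (A (Fm hg hη x y m))) +
    (starRingEnd ℂ ((Real.sqrt (Rm m) : ℂ) * y)) * (tm * inner ℂ (Uh hη (Rm m)) (A (Fm hg hη x y m)))

/-- the limit on test vectors -/
lemma form_lim {S : L2 →L[ℂ] L2} (ε : ℝ)
    (A : L2 →L[ℂ] L2) (hA : ∀ F, A F = (-(ε : ℂ) * Complex.I) • F + S F)
    {g η : ℝ → ℝ} (hg : Prof g) (hη : Prof η) (K1 K2 : ℂ)
    (a1 : Tendsto (fun m => ((Rm m : ℝ) : ℂ) * (inner ℂ (Ug hg (Rm m)) (S (Ug hg (Rm m))) : ℂ)) atTop (𝓝 0))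
    (a2 : Tendsto (fun m => ((Rm m : ℝ) : ℂ) * (inner ℂ (Uh hη (Rm m)) (S (Uh hη (Rm m))) : ℂ)) atTop (𝓝 0))
    (a3 : Tendsto (fun m => ((Rm m : ℝ) : ℂ) * (inner ℂ (Ug hg (Rm m)) (S (Uh hη (Rm m))) : ℂ)) atTop (𝓝 K1))
    (a4 : Tendsto (fun m => ((Rm m : ℝ) : ℂ) * (inner ℂ (Uh hη (Rm m)) (S (Ug hg (Rm m))) : ℂ)) atTop (𝓝 K2))
    (x y tp tm : ℂ) :
    Tendsto (fun m => PP A hg hη x y tp tm m) atTop (𝓝 (QF ε tp tm (NN g) (NN η) K1 K2 x y)) := by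
  have e : ∀ m, PP A hg hη x y tp tm m =
      tp * (-(ε : ℂ) * Complex.I * (‖x‖^2 * NN g : ℝ) +
        (‖x‖^2 : ℝ) * (((Rm m : ℝ) : ℂ) * (inner ℂ (Ug hg (Rm m)) (S (Ug hg (Rm m))) : ℂ)) +
        starRingEnd ℂ x * y * (((Rm m : ℝ) : ℂ) * (inner ℂ (Ug hg (Rm m)) (S (Uh hη (Rm m))) : ℂ))) +
      tm * (-(ε : ℂ) * Complex.I * (‖y‖^2 * NN η : ℝ) +
        (‖y‖^2 : ℝ) * (((Rm m : ℝ) : ℂ) * (inner ℂ (Uh hη (Rm m)) (S (Uh hη (Rm m))) : ℂ)) +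
        starRingEnd ℂ y * x * (((Rm m : ℝ) : ℂ) * (inner ℂ (Uh hη (Rm m)) (S (Ug hg (Rm m))) : ℂ))) := by
    intro m
    have hR := Rm_one_le m
    have hR0 := Rm_pos m
    set r : ℂ := (Real.sqrt (Rm m) : ℂ) with hr
    have hrr : r * r = Rm m := by
      rw [hr, ← Complex.ofReal_mul, Real.mul_self_sqrt hR0.le]
    have hrc : starRingEnd ℂ r = r := Complex.conj_ofReal _
    have e1 : (inner ℂ (Ug hg (Rm m)) (A (Fm hg hη x y m)) : ℂ) =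
        -(ε : ℂ) * Complex.I * (r * x * (NN g / Rm m)) + r * x * inner ℂ (Ug hg (Rm m)) (S (Ug hg (Rm m))) +
          r * y * inner ℂ (Ug hg (Rm m)) (S (Uh hη (Rm m))) := by
      rw [hA]
      unfold Fm
      rw [map_add, map_smul, map_smul, inner_add_right, inner_smul_right, inner_add_right, inner_smul_right,
        inner_smul_right, inner_add_right, inner_smul_right, inner_smul_right, Ngg hg hR, Ngh hg hη hR hR]
      ring
    have e2 : (inner ℂ (Uh hη (Rm m)) (A (Fm hg hη x y m)) : ℂ) =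
        -(ε : ℂ) * Complex.I * (r * y * (NN η / Rm m)) + r * y * inner ℂ (Uh hη (Rm m)) (S (Uh hη (Rm m))) +
          r * x * inner ℂ (Uh hη (Rm m)) (S (Ug hg (Rm m))) := by
      rw [hA]
      unfold Fm
      rw [map_add, map_smul, map_smul, inner_add_right, inner_smul_right, inner_add_right, inner_smul_right,
        inner_smul_right, inner_add_right, inner_smul_right, inner_smul_right, Nhh hη hR, Nhg hg hη hR hR]
      ring
    unfold PP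
    rw [e1, e2]
    generalize (inner ℂ (Ug hg (Rm m)) (S (Ug hg (Rm m))) : ℂ) = z1
    generalize (inner ℂ (Ug hg (Rm m)) (S (Uh hη (Rm m))) : ℂ) = z2
    generalize (inner ℂ (Uh hη (Rm m)) (S (Ug hg (Rm m))) : ℂ) = z3
    generalize (inner ℂ (Uh hη (Rm m)) (S (Uh hη (Rm m))) : ℂ) = z4
    have hx := mul_conj_norm x
    have hy := mul_conj_norm y
    push_cast at hx hy ⊢
    rw [← hx, ← hy, map_mul, map_mul, hrc]
    have hR2 : (Rm m : ℂ) = r * r := hrr.symm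
    have hr0 : r ≠ 0 := by
      intro h0; rw [h0] at hR2; simp at hR2; exact hR0.ne' hR2
    rw [hR2]
    field_simp
  simp_rw [e]
  have l1 := (a1.const_mul ((‖x‖^2 : ℝ) : ℂ)).const_add (-(ε : ℂ) * Complex.I * ((‖x‖^2 * NN g : ℝ) : ℂ))
  have l2 := (a2.const_mul ((‖y‖^2 : ℝ) : ℂ)).const_add (-(ε : ℂ) * Complex.I * ((‖y‖^2 * NN η : ℝ) : ℂ))
  have l3 := ((l1.add (a3.const_mul (starRingEnd ℂ x * y))).const_mul tp).add
    ((l2.add (a4.const_mul (starRingEnd ℂ y * x))).const_mul tm)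
  simp only [mul_zero, add_zero] at l3
  exact l3

/-- main inequality -/
lemma main_ineq {S : L2 →L[ℂ] L2} (ε : ℝ)
    (A : L2 →L[ℂ] L2) (hA : ∀ F, A F = (-(ε : ℂ) * Complex.I) • F + S F)
    (θ : ℝ → ℂ) (tp tm : ℂ) (htp : Tendsto θ (𝓝[>] 0) (𝓝 tp)) (htm : Tendsto θ (𝓝[<] 0) (𝓝 tm))
    (B : L2 →L[ℂ] L2) (hB : ∀ f : L2, (B f : ℝ → ℂ) =ᵐ[mu] fun s => θ s * (A f : ℝ → ℂ) s)
    (D T : L2 →L[ℂ] L2) (hDT : (1/2 : ℂ) • (B + ContinuousLinearMap.adjoint B) = D + T)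
    (κ : ℝ) (hκ : ∀ f, κ * ‖f‖^2 ≤ (inner ℂ (D f) f : ℂ).re) (hT : IsCompactOperator T)
    {g η : ℝ → ℝ} (hg : Prof g) (hη : Prof η) (hNg : 0 < NN g) (hNη : 0 < NN η) (K1 K2 : ℂ)
    (a1 : Tendsto (fun m => ((Rm m : ℝ) : ℂ) * (inner ℂ (Ug hg (Rm m)) (S (Ug hg (Rm m))) : ℂ)) atTop (𝓝 0))
    (a2 : Tendsto (fun m => ((Rm m : ℝ) : ℂ) * (inner ℂ (Uh hη (Rm m)) (S (Uh hη (Rm m))) : ℂ)) atTop (𝓝 0))
    (a3 : Tendsto (fun m => ((Rm m : ℝ) : ℂ) * (inner ℂ (Ug hg (Rm m)) (S (Uh hη (Rm m))) : ℂ)) atTop (𝓝 K1))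
    (a4 : Tendsto (fun m => ((Rm m : ℝ) : ℂ) * (inner ℂ (Uh hη (Rm m)) (S (Ug hg (Rm m))) : ℂ)) atTop (𝓝 K2))
    (x y : ℂ) :
    κ * (‖x‖^2 * NN g + ‖y‖^2 * NN η) ≤ (QF ε tp tm (NN g) (NN η) K1 K2 x y).re := by
  set F : ℕ → L2 := fun m => Fm hg hη x y m with hF
  set ρ : ℝ := ‖x‖ * Real.sqrt (NN g) + ‖y‖ * Real.sqrt (NN η) with hρ
  have hρ0 : 0 ≤ ρ := by positivity
  have hFn : ∀ m, ‖F m‖ ≤ ρ := fun m => Fm_norm_le hg hη x y m
  have hTF : Tendsto (fun m => T (F m)) atTop (𝓝 0) :=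
    compact_null T hT F ρ hFn (fun z => Fm_weak hg hη x y hNg hNη z)
  have hTF2 : Tendsto (fun m => ‖T (F m)‖ * ρ) atTop (𝓝 0) := by
    have := hTF.norm.mul_const ρ
    simpa using this
  have hPl := form_lim ε A hA hg hη K1 K2 a1 a2 a3 a4 x y tp tm
  apply le_of_forall_pos_le_add
  intro τ hτ
  -- choose tolerance
  set τ1 : ℝ := τ / (3 * (ρ * (‖A‖ * ρ) + 1)) with hτ1
  have hden : 0 < 3 * (ρ * (‖A‖ * ρ) + 1) := by positivity
  have hτ1p : 0 < τ1 := by positivity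
  -- neighbourhoods
  obtain ⟨δ1, hδ1, hθ1⟩ : ∃ δ > 0, ∀ s, 0 < s → s < δ → ‖θ s - tp‖ ≤ τ1 := by
    have := htp (Metric.ball_mem_nhds tp hτ1p)
    rw [mem_map, mem_nhdsWithin] at this
    obtain ⟨U, hU, h0U, hsub⟩ := this
    obtain ⟨δ, hδ, hball⟩ := Metric.isOpen_iff.mp hU 0 h0U
    refine ⟨δ, hδ, fun s hs1 hs2 => ?_⟩
    have h1 : s ∈ U := hball (by rw [mem_ball_zero_iff, Real.norm_eq_abs, abs_of_pos hs1]; exact hs2)
    have h2 : θ s ∈ Metric.ball tp τ1 := hsub ⟨h1, hs1⟩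
    rw [mem_ball_iff_norm] at h2
    exact h2.le
  obtain ⟨δ2, hδ2, hθ2⟩ : ∃ δ > 0, ∀ s, s < 0 → -δ < s → ‖θ s - tm‖ ≤ τ1 := by
    have := htm (Metric.ball_mem_nhds tm hτ1p)
    rw [mem_map, mem_nhdsWithin] at this
    obtain ⟨U, hU, h0U, hsub⟩ := this
    obtain ⟨δ, hδ, hball⟩ := Metric.isOpen_iff.mp hU 0 h0U
    refine ⟨δ, hδ, fun s hs1 hs2 => ?_⟩
    have h1 : s ∈ U := hball (by rw [mem_ball_zero_iff, Real.norm_eq_abs, abs_of_neg hs1]; linarith)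
    have h2 : θ s ∈ Metric.ball tm τ1 := hsub ⟨h1, hs1⟩
    rw [mem_ball_iff_norm] at h2
    exact h2.le
  -- choose m
  have hRinf : Tendsto Rm atTop atTop := tendsto_pow_atTop_atTop_of_one_lt (by norm_num)
  have ev1 := hRinf.eventually_gt_atTop (1/δ1)
  have ev2 := hRinf.eventually_gt_atTop (1/δ2)
  have ev3 : ∀ᶠ m in atTop, ‖T (F m)‖ * ρ < τ/3 := hTF2.eventually (Iio_mem_nhds (by positivity))
  have ev4 : ∀ᶠ m in atTop, ‖PP A hg hη x y tp tm m - QF ε tp tm (NN g) (NN η) K1 K2 x y‖ < τ/3 := by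
    have h5 := hPl.sub_const (QF ε tp tm (NN g) (NN η) K1 K2 x y)
    rw [sub_self] at h5
    have h6 := h5.norm
    rw [norm_zero] at h6
    exact h6.eventually (Iio_mem_nhds (by positivity))
  obtain ⟨m, hm1, hm2, hm3, hm4⟩ := (ev1.and (ev2.and (ev3.and ev4))).exists
  have hR := Rm_one_le m
  have hR0 := Rm_pos m
  have hRδ1 : 7 / (8 * Rm m) < δ1 := by
    rw [div_lt_iff₀ (by positivity)]
    rw [div_lt_iff₀ hδ1] at hm1
    nlinarith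
  have hRδ2 : 7 / (8 * Rm m) < δ2 := by
    rw [div_lt_iff₀ (by positivity)]
    rw [div_lt_iff₀ hδ2] at hm2
    nlinarith
  -- localisation
  set f := F m with hf
  have l1 := loc_mul (Ug hg (Rm m)) (A f) (B f) θ tp τ1 hτ1p.le (hB f) (by
    filter_upwards [Ug_coe hg (Rm m)] with s hs h0
    rw [hs] at h0
    have h1 := supp_fg hg hR h0
    have h2 := R_small hR
    exact hθ1 s (by linarith [h1.1, h2.1]) (by linarith [h1.2]))
  have l2 := loc_mul (Uh hη (Rm m)) (A f) (B f) θ tm τ1 hτ1p.le (hB f) (by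
    filter_upwards [Uh_coe hη (Rm m)] with s hs h0
    rw [hs] at h0
    have h1 := supp_fh hη hR h0
    have h2 := R_small hR
    exact hθ2 s (by linarith [h1.1, h2.1]) (by linarith [h1.2]))
  -- expand inner f (B f)
  set α : ℂ := (Real.sqrt (Rm m) : ℂ) * x with hα
  set β : ℂ := (Real.sqrt (Rm m) : ℂ) * y with hβ
  have hfexp : f = α • Ug hg (Rm m) + β • Uh hη (Rm m) := rfl
  have e1 : (inner ℂ f (B f) : ℂ) = starRingEnd ℂ α * inner ℂ (Ug hg (Rm m)) (B f) +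
      starRingEnd ℂ β * inner ℂ (Uh hη (Rm m)) (B f) := by
    nth_rewrite 1 [hfexp]
    rw [inner_add_left, inner_smul_left, inner_smul_left]
  have e2 : PP A hg hη x y tp tm m = starRingEnd ℂ α * (tp * inner ℂ (Ug hg (Rm m)) (A f)) +
      starRingEnd ℂ β * (tm * inner ℂ (Uh hη (Rm m)) (A f)) := rfl
  have e3 : (inner ℂ f (B f) : ℂ) - PP A hg hη x y tp tm m =
      starRingEnd ℂ α * (inner ℂ (Ug hg (Rm m)) (B f) - tp * inner ℂ (Ug hg (Rm m)) (A f)) +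
      starRingEnd ℂ β * (inner ℂ (Uh hη (Rm m)) (B f) - tm * inner ℂ (Uh hη (Rm m)) (A f)) := by
    rw [e1, e2]
    ring
  have n1 : ‖α‖ * ‖Ug hg (Rm m)‖ = ‖x‖ * Real.sqrt (NN g) := by
    rw [← vg_norm hg m, Real.sqrt_sq (norm_nonneg _), norm_smul, hα, norm_mul]
    ring
  have n2 : ‖β‖ * ‖Uh hη (Rm m)‖ = ‖y‖ * Real.sqrt (NN η) := by
    rw [← vh_norm hη m, Real.sqrt_sq (norm_nonneg _), norm_smul, hβ, norm_mul]
    ring
  have hAf : ‖A f‖ ≤ ‖A‖ * ρ := (A.le_opNorm f).trans (by gcongr; exact hFn m)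
  have e4 : ‖(inner ℂ f (B f) : ℂ) - PP A hg hη x y tp tm m‖ ≤ τ / 3 := by
    rw [e3]
    refine (norm_add_le _ _).trans ?_
    rw [norm_mul, norm_mul, RCLike.norm_conj, RCLike.norm_conj]
    calc ‖α‖ * ‖(inner ℂ (Ug hg (Rm m)) (B f) : ℂ) - tp * inner ℂ (Ug hg (Rm m)) (A f)‖ +
          ‖β‖ * ‖(inner ℂ (Uh hη (Rm m)) (B f) : ℂ) - tm * inner ℂ (Uh hη (Rm m)) (A f)‖
        ≤ ‖α‖ * (τ1 * ‖Ug hg (Rm m)‖ * ‖A f‖) + ‖β‖ * (τ1 * ‖Uh hη (Rm m)‖ * ‖A f‖) := by gcongr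
      _ = τ1 * ((‖α‖ * ‖Ug hg (Rm m)‖ + ‖β‖ * ‖Uh hη (Rm m)‖) * ‖A f‖) := by ring
      _ = τ1 * (ρ * ‖A f‖) := by rw [n1, n2]
      _ ≤ τ1 * (ρ * (‖A‖ * ρ)) := by gcongr
      _ ≤ τ1 * (ρ * (‖A‖ * ρ) + 1) := by gcongr; linarith
      _ = τ / 3 := by rw [hτ1]; field_simp
  -- real part of inner
  have e5 : (inner ℂ ((D + T) f) f : ℂ).re = (inner ℂ f (B f) : ℂ).re := by
    rw [← hDT]
    rw [smul_apply, add_apply, inner_smul_left, inner_add_left,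
      ContinuousLinearMap.adjoint_inner_left]
    have h1 : (inner ℂ (B f) f : ℂ) = starRingEnd ℂ (inner ℂ f (B f)) := (inner_conj_symm _ _).symm
    rw [h1]
    have h2 : starRingEnd ℂ (1/2 : ℂ) = 1/2 := by
      have c2 : (starRingEnd ℂ) 2 = 2 := map_ofNat _ 2
      rw [map_div₀, c2]; simp
    rw [h2]
    generalize (inner ℂ f (B f) : ℂ) = w
    simp
    ring
  have e6 : κ * (‖x‖^2 * NN g + ‖y‖^2 * NN η) ≤ (inner ℂ (D f) f : ℂ).re := by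
    have := hκ f
    rwa [Fm_norm_sq] at this
  have e7 : (inner ℂ ((D + T) f) f : ℂ).re = (inner ℂ (D f) f : ℂ).re + (inner ℂ (T f) f : ℂ).re := by
    rw [add_apply, inner_add_left]; simp
  have e8 : |(inner ℂ (T f) f : ℂ).re| ≤ τ / 3 := by
    refine (Complex.abs_re_le_norm _).trans ?_
    refine (norm_inner_le_norm _ _).trans ?_
    calc ‖T f‖ * ‖f‖ ≤ ‖T f‖ * ρ := by gcongr; exact hFn m
      _ ≤ τ / 3 := hm3.le
  have e9 : |(inner ℂ f (B f) : ℂ).re - (PP A hg hη x y tp tm m).re| ≤ τ / 3 := by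
    have := (Complex.abs_re_le_norm ((inner ℂ f (B f) : ℂ) - PP A hg hη x y tp tm m)).trans e4
    simpa using this
  have e10 : |(PP A hg hη x y tp tm m).re - (QF ε tp tm (NN g) (NN η) K1 K2 x y).re| ≤ τ / 3 := by
    have := (Complex.abs_re_le_norm (PP A hg hη x y tp tm m - QF ε tp tm (NN g) (NN η) K1 K2 x y)).trans hm4.le
    simpa using this
  have h1 := abs_le.mp e8
  have h2 := abs_le.mp e9
  have h3 := abs_le.mp e10
  linarith [h1.1, h2.2, h3.2]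

lemma QF_re (ε : ℝ) (tp tm : ℂ) (Ng Nη : ℝ) (K1 K2 x y : ℂ) :
    (QF ε tp tm Ng Nη K1 K2 x y).re = ε * tp.im * Ng * ‖x‖^2 + ε * tm.im * Nη * ‖y‖^2 +
      (starRingEnd ℂ x * y * (tp * K1 + starRingEnd ℂ (tm * K2))).re := by
  unfold QF
  have e1 : (tm * (starRingEnd ℂ y * x * K2)).re =
      (starRingEnd ℂ x * y * starRingEnd ℂ (tm * K2)).re := by
    rw [← Complex.conj_re]
    congr 1
    simp only [map_mul, Complex.conj_conj]
    ring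
  have e3 : tp * (-(ε : ℂ) * Complex.I * ((‖x‖^2 * Ng : ℝ) : ℂ) + starRingEnd ℂ x * y * K1) =
      tp * (-(ε : ℂ) * Complex.I * ((‖x‖^2 * Ng : ℝ) : ℂ)) + starRingEnd ℂ x * y * (tp * K1) := by ring
  have e4 : tm * (-(ε : ℂ) * Complex.I * ((‖y‖^2 * Nη : ℝ) : ℂ) + starRingEnd ℂ y * x * K2) =
      tm * (-(ε : ℂ) * Complex.I * ((‖y‖^2 * Nη : ℝ) : ℂ)) + tm * (starRingEnd ℂ y * x * K2) := by ring
  rw [e3, e4, Complex.add_re, Complex.add_re, Complex.add_re, e1, mul_add, Complex.add_re]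
  have e5 : ∀ (t : ℂ) (r : ℝ), (t * (-(ε : ℂ) * Complex.I * (r : ℂ))).re = ε * t.im * r := by
    intro t r
    simp
    ring
  rw [e5, e5]
  ring

lemma pair_bound {ε : ℝ} {tp tm : ℂ} {Ng Nη : ℝ} {K1 K2 : ℂ} {κ : ℝ} (hκ : 0 < κ) (hε : 0 < ε)
    (hNg : 0 < Ng) (hNη : 0 < Nη)
    (h : ∀ x y : ℂ, κ * (‖x‖^2 * Ng + ‖y‖^2 * Nη) ≤ (QF ε tp tm Ng Nη K1 K2 x y).re) :
    0 < tp.im ∧ 0 < tm.im ∧
      ‖tp * K1 + starRingEnd ℂ (tm * K2)‖^2 ≤ 4 * (ε * tp.im * Ng) * (ε * tm.im * Nη) := by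
  have h1 : 0 < tp.im := by
    have := h 1 0
    rw [QF_re] at this
    simp at this
    have h2 : 0 < ε * tp.im * Ng := lt_of_lt_of_le (by positivity) this
    by_contra h3
    rw [not_lt] at h3
    have : ε * tp.im * Ng ≤ 0 := by
      have := mul_nonpos_of_nonneg_of_nonpos (mul_pos hε hNg).le h3
      linarith
    linarith
  have h2 : 0 < tm.im := by
    have := h 0 1
    rw [QF_re] at this
    simp at this
    have h2 : 0 < ε * tm.im * Nη := lt_of_lt_of_le (by positivity) this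
    by_contra h3
    rw [not_lt] at h3
    have : ε * tm.im * Nη ≤ 0 := by
      have := mul_nonpos_of_nonneg_of_nonpos (mul_pos hε hNη).le h3
      linarith
    linarith
  refine ⟨h1, h2, Pool.Agent.Helper49.Sq.Test7.quad _ _ _ (by positivity) fun x y => ?_⟩
  have h3 := h x y
  rw [QF_re] at h3
  refine le_trans ?_ h3
  positivity

end Pool.Agent.Y664.CR
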