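import Mathlib
import Pool.Agent.Helper49.Sq.Test6
import Pool.Agent.Y664.CR.Stm

set_option autoImplicit false
open MeasureTheory Filter Topology Set
open Pool.Agent.Helper49.Sq.Test2 (Prof)

namespace Pool.Agent.Y664.CR

lemma Pf.prof {u : ℝ → ℝ} (h : Pf u) : Prof u := ⟨h.lip, h.supp⟩

lemma Prof.pf {u : ℝ → ℝ} (h : Prof u) : Pf u := ⟨h.lip, h.supp⟩

lemma Pf.cont {u : ℝ → ℝ} (hu : Pf u) : Continuous u := hu.lip.choose_spec.continuous

lemma sq_int {E : Type*} [NormedAddCommGroup E] [NormedSpace ℝ E] {g η : ℝ → ℝ} (hg : Pf g) (hη : Pf η)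
    (φ : ℝ × ℝ → E) (hφ : ContinuousOn φ (Icc (1/8:ℝ) (7/8) ×ˢ Icc (1/8:ℝ) (7/8))) :
    Integrable (fun p : ℝ × ℝ => (g p.1 * η p.2) • φ p) (volume.prod volume) := by
  have hgc := hg.cont
  have hηc := hη.cont
  have hc : ContinuousOn (fun p : ℝ × ℝ => (g p.1 * η p.2) • φ p)
      (Icc (1/8:ℝ) (7/8) ×ˢ Icc (1/8:ℝ) (7/8)) := by
    apply ContinuousOn.smul (by fun_prop) hφ
  have h1 := hc.integrableOn_compact (μ := volume.prod volume) (isCompact_Icc.prod isCompact_Icc)
  rw [← integrableOn_iff_integrable_of_support_subset]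
  · exact h1
  · intro p hp
    have hp' : (g p.1 * η p.2) • φ p ≠ 0 := hp
    have h2 : g p.1 ≠ 0 := by
      intro h; apply hp'; rw [h]; simp
    have h3 : η p.2 ≠ 0 := by
      intro h; apply hp'; rw [h]; simp
    exact ⟨hg.supp _ h2, hη.supp _ h3⟩

/-- the square of the denominator -/
noncomputable def DD (v w : ℂ) (p : ℝ × ℝ) : ℝ := Complex.normSq ((p.1 : ℂ) * w + (p.2 : ℂ) * v)

lemma den_ne {v w : ℂ} (hv : ‖v‖ = 1) (hw : ‖w‖ = 1) (hn : v ≠ -w) {x y : ℝ} (hx : 0 < x) (hy : 0 < y) :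
    (x : ℂ) * w + (y : ℂ) * v ≠ 0 := by
  intro h
  have h1 : (x : ℂ) * w = -((y : ℂ) * v) := eq_neg_of_add_eq_zero_left h
  have h2 := congrArg norm h1
  rw [norm_neg, norm_mul, norm_mul, hv, hw, Complex.norm_real, Complex.norm_real, Real.norm_eq_abs,
    Real.norm_eq_abs, abs_of_pos hx, abs_of_pos hy, mul_one, mul_one] at h2
  apply hn
  rw [h2] at h1
  have hyc : (y : ℂ) ≠ 0 := by exact_mod_cast hy.ne'
  have h3 : (y : ℂ) * (v + w) = 0 := by
    rw [mul_add, h1]; ring
  rcases mul_eq_zero.mp h3 with h4 | h4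
  · exact absurd h4 hyc
  · exact eq_neg_of_add_eq_zero_left h4

lemma DD_pos {v w : ℂ} (hv : ‖v‖ = 1) (hw : ‖w‖ = 1) (hn : v ≠ -w) {p : ℝ × ℝ} (hx : 0 < p.1) (hy : 0 < p.2) :
    0 < DD v w p := by
  unfold DD
  exact Complex.normSq_pos.mpr (den_ne hv hw hn hx hy)

lemma DD_swap {v w : ℂ} (hv : ‖v‖ = 1) (hw : ‖w‖ = 1) (p : ℝ × ℝ) : DD v w p.swap = DD v w p := by
  unfold DD
  rw [Complex.normSq_add, Complex.normSq_add]
  simp only [Complex.normSq_mul, Complex.normSq_eq_norm_sq, hv, hw, Prod.fst_swap, Prod.snd_swap, map_mul,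
    Complex.conj_ofReal]
  have e : (((p.2 : ℂ) * w * ((p.1 : ℂ) * starRingEnd ℂ v))).re =
      ((p.1 : ℂ) * w * ((p.2 : ℂ) * starRingEnd ℂ v)).re := by
    congr 1; ring
  rw [e]
  ring

lemma DD_cont (v w : ℂ) : Continuous (DD v w) := by
  unfold DD
  exact Complex.continuous_normSq.comp (by fun_prop)

theorem t_int : S_int := by
  intro v w hv hw hn g η hg hη hg0 hη0 hgne hηne
  -- the general formula
  have gen : ∀ (g η : ℝ → ℝ), Pf g → Pf η →
      Integrable (fun p : ℝ × ℝ => g p.1 * η p.2 * (p.1 / DD v w p)) (volume.prod volume) ∧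
      Integrable (fun p : ℝ × ℝ => g p.1 * η p.2 * (p.2 / DD v w p)) (volume.prod volume) ∧
      JJ v w g η = ((∫ p : ℝ × ℝ, g p.1 * η p.2 * (p.1 / DD v w p) ∂(volume.prod volume) : ℝ) : ℂ) * starRingEnd ℂ w +
        ((∫ p : ℝ × ℝ, g p.1 * η p.2 * (p.2 / DD v w p) ∂(volume.prod volume) : ℝ) : ℂ) * starRingEnd ℂ v := by
    intro g η hg hη
    have hDc := DD_cont v w
    have hDne : ∀ p ∈ Icc (1/8:ℝ) (7/8) ×ˢ Icc (1/8:ℝ) (7/8), DD v w p ≠ 0 := fun p hp =>
      (DD_pos hv hw hn (by linarith [hp.1.1]) (by linarith [hp.2.1])).ne'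
    have i1 := sq_int hg hη (fun p => p.1 / DD v w p) (ContinuousOn.div (by fun_prop) hDc.continuousOn hDne)
    have i2 := sq_int hg hη (fun p => p.2 / DD v w p) (ContinuousOn.div (by fun_prop) hDc.continuousOn hDne)
    have i3 := sq_int hg hη (fun p => 1 / ((p.1 : ℂ) * w + (p.2 : ℂ) * v))
      (ContinuousOn.div (by fun_prop) (by fun_prop) (fun p hp =>
        den_ne hv hw hn (by linarith [hp.1.1]) (by linarith [hp.2.1])))
    simp only [smul_eq_mul] at i1 i2
    refine ⟨i1, i2, ?_⟩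
    have e1 : JJ v w g η = ∫ p : ℝ × ℝ, (g p.1 * η p.2) • (1 / ((p.1 : ℂ) * w + (p.2 : ℂ) * v)) ∂(volume.prod volume) := by
      rw [integral_prod _ i3]
      unfold JJ
      congr 1
      funext x
      rw [← integral_const_mul]
      congr 1
      funext y
      rw [Complex.real_smul]
      push_cast
      ring
    rw [e1, ← integral_complex_ofReal, ← integral_complex_ofReal, ← integral_mul_const, ← integral_mul_const,
      ← integral_add]
    · congr 1
      funext p
      have e2 : 1 / ((p.1 : ℂ) * w + (p.2 : ℂ) * v) =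
          ((p.1 : ℂ) * starRingEnd ℂ w + (p.2 : ℂ) * starRingEnd ℂ v) / (DD v w p : ℂ) := by
        rw [one_div, Complex.inv_def]
        unfold DD
        simp only [map_add, map_mul, Complex.conj_ofReal]
        push_cast
        ring
      rw [e2, Complex.real_smul]
      push_cast
      ring
    · exact (i1.ofReal (𝕜 := ℂ)).mul_const _
    · exact (i2.ofReal (𝕜 := ℂ)).mul_const _
  constructor
  · obtain ⟨i1, i2, e⟩ := gen g g hg hg
    have hs : ∫ p : ℝ × ℝ, g p.1 * g p.2 * (p.2 / DD v w p) ∂(volume.prod volume) =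
        ∫ p : ℝ × ℝ, g p.1 * g p.2 * (p.1 / DD v w p) ∂(volume.prod volume) := by
      rw [← integral_prod_swap]
      congr 1
      funext p
      rw [DD_swap hv hw]
      simp only [Prod.fst_swap, Prod.snd_swap]
      ring
    refine ⟨∫ p : ℝ × ℝ, g p.1 * g p.2 * (p.1 / DD v w p) ∂(volume.prod volume), ?_, ?_⟩
    · apply Pool.Agent.Helper49.Sq.Test6.pos_int hg.prof hg.prof hg0 hg0 hgne hgne (fun p => p.1 / DD v w p) _ i1
      intro x y hx hy
      have h1 := (hg.supp x hx).1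
      have h2 := (hg.supp y hy).1
      have h3 := DD_pos hv hw hn (p := (x, y)) (by simp only; linarith) (by simp only; linarith)
      simp only
      apply div_pos (by linarith) h3
    · rw [e, hs]
      ring
  · obtain ⟨i1, i2, e⟩ := gen g η hg hη
    refine ⟨_, _, e, fun h => ?_⟩
    have h1 : 0 < ∫ p : ℝ × ℝ, g p.1 * η p.2 * ((p.1 - p.2) / DD v w p) ∂(volume.prod volume) := by
      apply Pool.Agent.Helper49.Sq.Test6.pos_int hg.prof hη.prof hg0 hη0 hgne hηne
        (fun p => (p.1 - p.2) / DD v w p)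
      · intro x y hx hy
        have h1 := (hg.supp x hx).1
        have h2 := (hη.supp y hy).1
        have h3 := DD_pos hv hw hn (p := (x, y)) (by simp only; linarith) (by simp only; linarith)
        have h4 := h x y hx hy
        simp only
        apply div_pos (by linarith) h3
      · refine (i1.sub i2).congr (Filter.Eventually.of_forall fun p => ?_)
        simp only [Pi.sub_apply]
        ring
    have h2 : ∫ p : ℝ × ℝ, g p.1 * η p.2 * ((p.1 - p.2) / DD v w p) ∂(volume.prod volume) =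
        (∫ p : ℝ × ℝ, g p.1 * η p.2 * (p.1 / DD v w p) ∂(volume.prod volume)) -
        ∫ p : ℝ × ℝ, g p.1 * η p.2 * (p.2 / DD v w p) ∂(volume.prod volume) := by
      rw [← integral_sub i1 i2]
      congr 1
      funext p
      ring
    rw [h2] at h1
    linarith

end Pool.Agent.Y664.CR
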