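import Mathlib
import Pool.Agent.Y664.CR.Int

set_option autoImplicit false
open MeasureTheory Filter Topology Set
open Pool.Agent.Helper49.Sq.Defs (mu truncCauchy)
open Pool.Agent.Helper49.Sq.Core (L2 IsCauchyOp)

namespace Pool.Agent.Y664.CR

structure XH (γ : ℝ → ℂ) (e : ℝ) (Ts Tσ : ℂ) (c ρ : ℝ) : Prop where
  he : e = 1 ∨ e = -1
  lip : LipschitzWith 1 γ
  hs : ∀ x : ℝ, 0 < x → Tendsto (fun m : ℕ => (((8:ℝ)^m : ℝ) : ℂ) * (γ (e * x / 8^m) - γ 0)) atTop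
    (𝓝 ((e : ℂ) * x * Ts))
  hσ : ∀ y : ℝ, 0 < y → Tendsto (fun m : ℕ => (((8:ℝ)^m : ℝ) : ℂ) * (γ (-(e * y / 8^m)) - γ 0)) atTop
    (𝓝 (-((e : ℂ) * y * Tσ)))
  hd : ∀ y : ℝ, 0 < y → Tendsto (fun m : ℕ => deriv γ (-(e * y / 8^m))) atTop (𝓝 Tσ)
  hc : 0 < c
  low : ∀ x y R : ℝ, 0 < R → 0 < x → 0 < y → x / R < ρ → y / R < ρ →
    c * (x + y) / R ≤ ‖γ (-(e * y / R)) - γ (e * x / R)‖
  nz : ∀ x y : ℝ, 0 < x → 0 < y → (x : ℂ) * Ts + (y : ℂ) * Tσ ≠ 0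

lemma Pf.bdd {u : ℝ → ℝ} (hu : Pf u) : ∃ G, 0 ≤ G ∧ ∀ x, |u x| ≤ G := by
  obtain ⟨G0, hG0⟩ := (isCompact_Icc (a := (1/8 : ℝ)) (b := 7/8)).exists_bound_of_continuousOn hu.cont.continuousOn
  refine ⟨max G0 0, le_max_right _ _, fun x => ?_⟩
  by_cases hx : u x = 0
  · rw [hx, abs_zero]; exact le_max_right _ _
  · exact (hG0 x (hu.supp x hx)).trans (le_max_left _ _)

/-- the interval of the profiles -/
noncomputable abbrev nn : Measure ℝ := volume.restrict (Icc (1/8 : ℝ) (7/8))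

/-- the rescaled kernel -/
noncomputable def kap (γ : ℝ → ℂ) (e : ℝ) (m : ℕ) (P : ℝ × ℝ) : ℂ :=
  deriv γ (-(e * P.2 / 8^m)) / ((((8:ℝ)^m : ℝ) : ℂ) * (γ (-(e * P.2 / 8^m)) - γ (e * P.1 / 8^m)))

variable {γ : ℝ → ℂ} {e : ℝ} {Ts Tσ : ℂ} {c ρ : ℝ}

lemma XH.ee (h : XH γ e Ts Tσ c ρ) : e * e = 1 := by
  rcases h.he with h | h <;> rw [h] <;> norm_num

lemma XH.ae (h : XH γ e Ts Tσ c ρ) : |e| = 1 := by
  rcases h.he with h | h <;> rw [h] <;> norm_num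

lemma XH.kap_meas (h : XH γ e Ts Tσ c ρ) (m : ℕ) : Measurable (kap γ e m) := by
  have h1 := h.lip.continuous.measurable
  have h2 : Measurable (deriv γ) := measurable_deriv γ
  unfold kap
  fun_prop

lemma XH.kap_bound (h : XH γ e Ts Tσ c ρ) {m : ℕ} (hm : 1 / (8:ℝ)^m < ρ) {P : ℝ × ℝ}
    (h1 : P.1 ∈ Icc (1/8 : ℝ) (7/8)) (h2 : P.2 ∈ Icc (1/8 : ℝ) (7/8)) : ‖kap γ e m P‖ ≤ 4 / c := by
  have hR : (0:ℝ) < 8^m := by positivity
  have hc := h.hc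
  have hdb : ‖deriv γ (-(e * P.2 / 8^m))‖ ≤ 1 := by
    have := norm_deriv_le_of_lipschitz (x₀ := -(e * P.2 / 8^m)) h.lip
    simpa using this
  have hx : P.1 / 8^m < ρ := lt_of_le_of_lt (by
    apply div_le_div_of_nonneg_right _ hR.le; linarith [h1.2]) hm
  have hy : P.2 / 8^m < ρ := lt_of_le_of_lt (by
    apply div_le_div_of_nonneg_right _ hR.le; linarith [h2.2]) hm
  have hl := h.low P.1 P.2 (8^m) hR (by linarith [h1.1]) (by linarith [h2.1]) hx hy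
  unfold kap
  rw [norm_div, norm_mul, Complex.norm_real, Real.norm_eq_abs, abs_of_pos hR]
  have h3 : c / 4 ≤ 8^m * ‖γ (-(e * P.2 / 8^m)) - γ (e * P.1 / 8^m)‖ := by
    rw [div_le_iff₀ hR] at hl
    have h4 : c * (1 / 4) ≤ c * (P.1 + P.2) := by
      apply mul_le_mul_of_nonneg_left _ hc.le
      linarith [h1.1, h2.1]
    linarith
  have h4 : (4 : ℝ) / c = 1 / (c / 4) := by field_simp
  rw [h4]
  exact div_le_div₀ zero_le_one hdb (by positivity) h3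

lemma XH.kap_lim (h : XH γ e Ts Tσ c ρ) {P : ℝ × ℝ} (h1 : 0 < P.1) (h2 : 0 < P.2) :
    Tendsto (fun m => kap γ e m P) atTop (𝓝 (Tσ / (-(e : ℂ) * ((P.1:ℂ) * Ts + (P.2 : ℂ) * Tσ)))) := by
  have e1 : ∀ m : ℕ, kap γ e m P = deriv γ (-(e * P.2 / 8^m)) /
      ((((8:ℝ)^m : ℝ) : ℂ) * (γ (-(e * P.2 / 8^m)) - γ 0) -
        (((8:ℝ)^m : ℝ) : ℂ) * (γ (e * P.1 / 8^m) - γ 0)) := by
    intro m
    unfold kap
    congr 1
    ring
  simp_rw [e1]
  have e2 : -(e : ℂ) * ((P.1:ℂ) * Ts + (P.2 : ℂ) * Tσ) = -((e : ℂ) * P.2 * Tσ) - (e : ℂ) * P.1 * Ts := by ring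
  have hne : -(e : ℂ) * ((P.1:ℂ) * Ts + (P.2 : ℂ) * Tσ) ≠ 0 := by
    apply mul_ne_zero _ (h.nz _ _ h1 h2)
    rcases h.he with h | h <;> rw [h] <;> norm_num
  rw [e2] at hne ⊢
  exact (h.hd _ h2).div ((h.hσ _ h2).sub (h.hs _ h1)) hne

lemma XH.int_m (h : XH γ e Ts Tσ c ρ) {φ ψ : ℝ → ℝ} (hφ : Pf φ) (hψ : Pf ψ) {m : ℕ} (hm : 1 / (8:ℝ)^m < ρ) :
    Integrable (fun P : ℝ × ℝ => (φ P.1 * ψ P.2) • kap γ e m P) (nn.prod nn) := by
  obtain ⟨G1, hG1, g1⟩ := hφ.bdd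
  obtain ⟨G2, hG2, g2⟩ := hψ.bdd
  have hc := h.hc
  refine Integrable.of_bound (C := G1 * G2 * (4 / c)) ?_ ?_
  · apply Measurable.aestronglyMeasurable
    have m1 := hφ.cont.measurable
    have m2 := hψ.cont.measurable
    have m3 := h.kap_meas m
    have m4 : Measurable (fun P : ℝ × ℝ => φ P.1 * ψ P.2) := by fun_prop
    exact m4.smul m3
  · rw [nn, Measure.prod_restrict]
    filter_upwards [ae_restrict_mem (measurableSet_Icc.prod measurableSet_Icc)] with P hP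
    rw [norm_smul, Real.norm_eq_abs, abs_mul]
    have := h.kap_bound hm hP.1 hP.2
    have a1 := g1 P.1
    have a2 := g2 P.2
    gcongr

lemma XH.lim_int (h : XH γ e Ts Tσ c ρ) {φ ψ : ℝ → ℝ} (hφ : Pf φ) (hψ : Pf ψ)
    (hev : ∀ᶠ m : ℕ in atTop, 1 / (8:ℝ)^m < ρ) :
    Tendsto (fun m => ∫ P : ℝ × ℝ, (φ P.1 * ψ P.2) • kap γ e m P ∂(nn.prod nn)) atTop
      (𝓝 (∫ P : ℝ × ℝ, (φ P.1 * ψ P.2) • (Tσ / (-(e : ℂ) * ((P.1:ℂ) * Ts + (P.2 : ℂ) * Tσ))) ∂(nn.prod nn))) := by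
  obtain ⟨G1, hG1, g1⟩ := hφ.bdd
  obtain ⟨G2, hG2, g2⟩ := hψ.bdd
  have hc := h.hc
  have hsq : ∀ᵐ P : ℝ × ℝ ∂(nn.prod nn), P.1 ∈ Icc (1/8 : ℝ) (7/8) ∧ P.2 ∈ Icc (1/8 : ℝ) (7/8) := by
    rw [nn, Measure.prod_restrict]
    filter_upwards [ae_restrict_mem (measurableSet_Icc.prod measurableSet_Icc)] with P hP
    exact hP
  apply tendsto_integral_filter_of_dominated_convergence (fun _ => G1 * G2 * (4 / c))
  · refine Filter.Eventually.of_forall fun m => ?_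
    apply Measurable.aestronglyMeasurable
    have m1 := hφ.cont.measurable
    have m2 := hψ.cont.measurable
    have m3 := h.kap_meas m
    have m4 : Measurable (fun P : ℝ × ℝ => φ P.1 * ψ P.2) := by fun_prop
    exact m4.smul m3
  · filter_upwards [hev] with m hm
    filter_upwards [hsq] with P hP
    rw [norm_smul, Real.norm_eq_abs, abs_mul]
    have := h.kap_bound hm hP.1 hP.2
    have a1 := g1 P.1
    have a2 := g2 P.2
    gcongr
  · exact integrable_const _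
  · filter_upwards [hsq] with P hP
    exact (h.kap_lim (by linarith [hP.1.1]) (by linarith [hP.2.1])).const_smul _

lemma lip_scale {u : ℝ → ℝ} (hu : Pf u) (a : ℝ) : ∃ K, LipschitzWith K (fun s : ℝ => (u (a * s) : ℂ)) := by
  obtain ⟨K, hK⟩ := hu.lip
  refine ⟨1 * (K * Real.toNNReal |a|), ?_⟩
  have h1 : LipschitzWith (Real.toNNReal |a|) (fun s : ℝ => a * s) := by
    apply LipschitzWith.of_dist_le_mul
    intro x y
    rw [Real.dist_eq, Real.dist_eq, ← mul_sub, abs_mul, Real.coe_toNNReal _ (abs_nonneg _)]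
  exact Complex.isometry_ofReal.lipschitz.comp (hK.comp h1)

/-- the pairing as an integral of the rescaled kernel -/
lemma XH.pairing (h : XH γ e Ts Tσ c ρ) {φ ψ : ℝ → ℝ} (hφ : Pf φ) (hψ : Pf ψ)
    {S : L2 →L[ℂ] L2} (hS : IsCauchyOp γ S) (U V : L2) {m : ℕ} (hm : 1 / (8:ℝ)^m < ρ)
    (hU : (U : ℝ → ℂ) =ᵐ[mu] fun s => (φ (e * 8^m * s) : ℂ))
    (hV : (V : ℝ → ℂ) =ᵐ[mu] fun s => (ψ (-(e * 8^m) * s) : ℂ)) :
    (((8:ℝ)^m : ℝ) : ℂ) * (inner ℂ U (S V) : ℂ) =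
      (1 / ((Real.pi : ℂ) * Complex.I)) * ∫ P : ℝ × ℝ, (φ P.1 * ψ P.2) • kap γ e m P ∂(nn.prod nn) := by
  obtain ⟨R, hRdef⟩ : ∃ R : ℝ, R = 8^m := ⟨_, rfl⟩
  have hR1 : 1 ≤ R := by rw [hRdef]; exact one_le_pow₀ (by norm_num)
  have hR : 0 < R := by linarith
  have hee := h.ee
  have hae := h.ae
  have hc := h.hc
  have hRc : (R : ℂ) ≠ 0 := by exact_mod_cast hR.ne'
  rw [← hRdef] at hm hU hV ⊢
  -- supports
  have sup1 : ∀ s, φ (e * R * s) ≠ 0 → ∃ x, s = e * x / R ∧ 1/8 ≤ x ∧ x ≤ 7/8 := by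
    intro s hs
    obtain ⟨a1, a2⟩ := hφ.supp _ hs
    refine ⟨e * R * s, ?_, a1, a2⟩
    field_simp
    linear_combination (-s) * hee
  have sup2 : ∀ σ, ψ (-(e * R) * σ) ≠ 0 → ∃ y, σ = -(e * y / R) ∧ 1/8 ≤ y ∧ y ≤ 7/8 := by
    intro s hs
    obtain ⟨a1, a2⟩ := hψ.supp _ hs
    refine ⟨-(e * R) * s, ?_, a1, a2⟩
    field_simp
    linear_combination (-s) * hee
  have small : ∀ x : ℝ, 1/8 ≤ x → x ≤ 7/8 → |e * x / R| < 1 := by
    intro x h1 h2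
    rw [abs_div, abs_mul, hae, one_mul, abs_of_pos hR, abs_of_pos (by linarith), div_lt_one hR]
    linarith
  have z1 : ∀ s, s ∉ Ioo (-1 : ℝ) 1 → φ (e * R * s) = 0 := by
    intro s hs
    by_contra h0
    obtain ⟨x, h1, h2, h3⟩ := sup1 s h0
    have h4 := abs_lt.mp (small x h2 h3)
    rw [← h1] at h4
    exact hs ⟨h4.1, h4.2⟩
  have z2 : ∀ s, s ∉ Ioo (-1 : ℝ) 1 → ψ (-(e * R) * s) = 0 := by
    intro s hs
    by_contra h0
    obtain ⟨x, h1, h2, h3⟩ := sup2 s h0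
    have h4 := abs_lt.mp (small x h2 h3)
    have h5 : e * x / R = -s := by rw [h1]; ring
    rw [h5] at h4
    exact hs ⟨by linarith [h4.2], by linarith [h4.1]⟩
  -- the transform
  have hTr : ∀ᵐ s ∂mu, φ (e * R * s) ≠ 0 → (S V : ℝ → ℂ) s = (1 / ((Real.pi : ℂ) * Complex.I)) *
      ∫ σ in Ioc (-2 : ℝ) 2, (ψ (-(e * R) * σ) : ℂ) * deriv γ σ / (γ σ - γ s) := by
    have hf2 : (fun s : ℝ => (ψ (-(e * R) * s) : ℂ)) (-2) = (fun s : ℝ => (ψ (-(e * R) * s) : ℂ)) 2 := by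
      simp only
      rw [z2 (-2) (by intro h; linarith [h.1]), z2 2 (by intro h; linarith [h.2])]
    filter_upwards [hS _ (lip_scale hψ (-(e * R))) hf2 V hV] with s hs h0
    refine tendsto_nhds_unique hs ?_
    apply tendsto_const_nhds.congr'
    have hmem : Iio (c / (4 * R)) ∈ 𝓝[>] (0 : ℝ) := mem_nhdsWithin_of_mem_nhds (Iio_mem_nhds (by positivity))
    filter_upwards [hmem] with δ hδ
    unfold truncCauchy
    congr 1
    symm
    have hfar : MeasurableSet {σ : ℝ | δ < ‖γ σ - γ s‖} := by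
      have := h.lip.continuous
      apply measurableSet_lt measurable_const
      fun_prop
    symm
    apply setIntegral_eq_of_subset_of_forall_sdiff_eq_zero measurableSet_Ioc inter_subset_left
    intro σ hσ
    have hψ0 : ψ (-(e * R) * σ) = 0 := by
      by_contra h1
      apply hσ.2
      refine ⟨hσ.1, ?_⟩
      obtain ⟨x, hx1, hx2, hx3⟩ := sup1 s h0
      obtain ⟨y, hy1, hy2, hy3⟩ := sup2 σ h1
      have hl := h.low x y R hR (by linarith) (by linarith)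
        (lt_of_le_of_lt (by apply div_le_div_of_nonneg_right _ hR.le; linarith) hm)
        (lt_of_le_of_lt (by apply div_le_div_of_nonneg_right _ hR.le; linarith) hm)
      rw [← hx1, ← hy1] at hl
      refine lt_of_lt_of_le hδ (le_trans ?_ hl)
      rw [div_le_div_iff₀ (by positivity) hR]
      nlinarith [mul_pos hc hR]
    rw [hψ0]
    simp
  have e1 : (inner ℂ U (S V) : ℂ) = (1 / ((Real.pi : ℂ) * Complex.I)) * ∫ s in Ioc (-2 : ℝ) 2,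
      (φ (e * R * s) : ℂ) * ∫ σ in Ioc (-2 : ℝ) 2, (ψ (-(e * R) * σ) : ℂ) * deriv γ σ / (γ σ - γ s) := by
    rw [L2.inner_def, ← integral_const_mul]
    apply integral_congr_ae
    filter_upwards [hU, hTr] with s h1 h2
    rw [h1, RCLike.inner_apply, Complex.conj_ofReal]
    by_cases h0 : φ (e * R * s) = 0
    · rw [h0]; simp
    · rw [h2 h0]
      ring
  -- inner integral
  have e2 : ∀ x : ℝ, ∫ σ in Ioc (-2 : ℝ) 2, (ψ (-(e * R) * σ) : ℂ) * deriv γ σ / (γ σ - γ (e * x / R)) =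
      (R : ℂ)⁻¹ * ∫ y in Icc (1/8 : ℝ) (7/8), (ψ y : ℂ) * deriv γ (-(e * y / R)) / (γ (-(e * y / R)) - γ (e * x / R)) := by
    intro x
    have a1 : ∫ σ in Ioc (-2 : ℝ) 2, (ψ (-(e * R) * σ) : ℂ) * deriv γ σ / (γ σ - γ (e * x / R)) =
        ∫ σ : ℝ, (ψ (-(e * R) * σ) : ℂ) * deriv γ σ / (γ σ - γ (e * x / R)) := by
      apply setIntegral_eq_integral_of_forall_compl_eq_zero
      intro σ hσ
      rw [z2 σ (fun h => hσ ⟨by linarith [h.1], by linarith [h.2]⟩)]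
      simp
    have a2 : ∫ y in Icc (1/8 : ℝ) (7/8), (ψ y : ℂ) * deriv γ (-(e * y / R)) / (γ (-(e * y / R)) - γ (e * x / R)) =
        ∫ y : ℝ, (ψ y : ℂ) * deriv γ (-(e * y / R)) / (γ (-(e * y / R)) - γ (e * x / R)) := by
      apply setIntegral_eq_integral_of_forall_compl_eq_zero
      intro y hy
      have : ψ y = 0 := by
        by_contra h0
        exact hy (hψ.supp y h0)
      rw [this]
      simp
    have a3 := Measure.integral_comp_mul_left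
      (fun y : ℝ => (ψ y : ℂ) * deriv γ (-(e * y / R)) / (γ (-(e * y / R)) - γ (e * x / R))) (-(e * R))
    rw [a1, a2]
    have a4 : ∀ σ : ℝ, -(e * (-(e * R) * σ) / R) = σ := by
      intro σ
      field_simp
      linear_combination σ * hee
    simp only [a4] at a3
    rw [a3, abs_inv, abs_neg, abs_mul, hae, one_mul, abs_of_pos hR, Complex.real_smul, Complex.ofReal_inv]
  have e3 : ∫ s in Ioc (-2 : ℝ) 2,
      (φ (e * R * s) : ℂ) * ∫ σ in Ioc (-2 : ℝ) 2, (ψ (-(e * R) * σ) : ℂ) * deriv γ σ / (γ σ - γ s) =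
      (R : ℂ)⁻¹ * ∫ x in Icc (1/8 : ℝ) (7/8), (φ x : ℂ) *
        ∫ σ in Ioc (-2 : ℝ) 2, (ψ (-(e * R) * σ) : ℂ) * deriv γ σ / (γ σ - γ (e * x / R)) := by
    have a1 : ∫ s in Ioc (-2 : ℝ) 2,
      (φ (e * R * s) : ℂ) * ∫ σ in Ioc (-2 : ℝ) 2, (ψ (-(e * R) * σ) : ℂ) * deriv γ σ / (γ σ - γ s) =
        ∫ s : ℝ, (φ (e * R * s) : ℂ) * ∫ σ in Ioc (-2 : ℝ) 2, (ψ (-(e * R) * σ) : ℂ) * deriv γ σ / (γ σ - γ s) := by
      apply setIntegral_eq_integral_of_forall_compl_eq_zero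
      intro s hs
      rw [z1 s (fun h => hs ⟨by linarith [h.1], by linarith [h.2]⟩)]
      simp
    have a2 : ∫ x in Icc (1/8 : ℝ) (7/8), (φ x : ℂ) *
        ∫ σ in Ioc (-2 : ℝ) 2, (ψ (-(e * R) * σ) : ℂ) * deriv γ σ / (γ σ - γ (e * x / R)) =
        ∫ x : ℝ, (φ x : ℂ) *
        ∫ σ in Ioc (-2 : ℝ) 2, (ψ (-(e * R) * σ) : ℂ) * deriv γ σ / (γ σ - γ (e * x / R)) := by
      apply setIntegral_eq_integral_of_forall_compl_eq_zero
      intro y hy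
      have : φ y = 0 := by
        by_contra h0
        exact hy (hφ.supp y h0)
      rw [this]
      simp
    have a3 := Measure.integral_comp_mul_left
      (fun x : ℝ => (φ x : ℂ) *
        ∫ σ in Ioc (-2 : ℝ) 2, (ψ (-(e * R) * σ) : ℂ) * deriv γ σ / (γ σ - γ (e * x / R))) (e * R)
    rw [a1, a2]
    have a4 : ∀ s : ℝ, e * (e * R * s) / R = s := by
      intro s
      field_simp
      linear_combination s * hee
    simp only [a4] at a3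
    rw [a3, abs_inv, abs_mul, hae, one_mul, abs_of_pos hR, Complex.real_smul, Complex.ofReal_inv]
  have hm' : 1 / (8:ℝ)^m < ρ := by rw [← hRdef]; exact hm
  rw [integral_prod _ (h.int_m hφ hψ hm'), e1, e3]
  simp_rw [e2]
  have e4 : ∀ x y : ℝ, (φ (x, y).1 * ψ (x, y).2) • kap γ e m (x, y) =
      (φ x : ℂ) * ((R : ℂ)⁻¹ * ((ψ y : ℂ) * deriv γ (-(e * y / R)) / (γ (-(e * y / R)) - γ (e * x / R)))) := by
    intro x y
    unfold kap
    simp only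
    rw [← hRdef, Complex.real_smul, Complex.ofReal_mul]
    rw [div_mul_eq_div_div, div_eq_mul_inv _ (R : ℂ)]
    ring
  simp_rw [e4]
  simp_rw [integral_const_mul]
  have e5 : ∫ x in Icc (1/8 : ℝ) (7/8), (φ x : ℂ) * ((R : ℂ)⁻¹ * ∫ y in Icc (1/8 : ℝ) (7/8),
      (ψ y : ℂ) * deriv γ (-(e * y / R)) / (γ (-(e * y / R)) - γ (e * x / R))) =
      ∫ x, (φ x : ℂ) * ((R : ℂ)⁻¹ * ∫ y, (ψ y : ℂ) * deriv γ (-(e * y / R)) / (γ (-(e * y / R)) - γ (e * x / R)) ∂nn) ∂nn := rfl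
  rw [e5]
  field_simp

end Pool.Agent.Y664.CR
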