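import Mathlib
import Pool.Agent.Y664.CR.X

set_option autoImplicit false
open MeasureTheory Filter Topology Set
open Pool.Agent.Helper49.Sq.Defs (mu truncCauchy)
open Pool.Agent.Helper49.Sq.Core (L2 IsCauchyOp)

namespace Pool.Agent.Y664.CR

variable {γ : ℝ → ℂ} {v w : ℂ} {δ α C : ℝ}

lemma Cor.hpos (h : Cor γ v w δ α C) : 0 < δ := h.right.hab

lemma Cor.dr (h : Cor γ v w δ α C) : HasDerivWithinAt γ w (Ici 0) 0 := by
  apply hasDerivWithinAt_Ici_of_tendsto_deriv (s := Ioo 0 δ)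
  · intro x hx
    exact (h.right.diff x hx).differentiableWithinAt
  · exact h.right.lip.continuous.continuousWithinAt
  · exact Ioo_mem_nhdsGT h.hpos
  · exact h.tw

lemma Cor.dl (h : Cor γ v w δ α C) : HasDerivWithinAt γ v (Iic 0) 0 := by
  apply hasDerivWithinAt_Iic_of_tendsto_deriv (s := Ioo (-δ) 0)
  · intro x hx
    exact (h.left.diff x hx).differentiableWithinAt
  · exact h.right.lip.continuous.continuousWithinAt
  · exact Ioo_mem_nhdsLT (by linarith [h.hpos])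
  · exact h.tv

lemma sum_low (h : Cor γ v w δ α C) {x y : ℝ} (hx : 0 < x) (hy : 0 < y) :
    ‖v + w‖ / 2 * (x + y) ≤ ‖(x : ℂ) * w + (y : ℂ) * v‖ := by
  have hv := h.hv
  have hw := h.hw
  have e1 : ‖(x : ℂ) * w + (y : ℂ) * v‖^2 = x^2 + y^2 + 2 * (x * y * (w * starRingEnd ℂ v).re) := by
    rw [← Complex.normSq_eq_norm_sq, Complex.normSq_add, Complex.normSq_mul, Complex.normSq_mul,
      Complex.normSq_eq_norm_sq w, Complex.normSq_eq_norm_sq v, hv, hw, Complex.normSq_ofReal, Complex.normSq_ofReal]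
    have : ((x : ℂ) * w * starRingEnd ℂ ((y : ℂ) * v)).re = x * y * (w * starRingEnd ℂ v).re := by
      rw [map_mul, Complex.conj_ofReal]
      have e : (x : ℂ) * w * ((y : ℂ) * starRingEnd ℂ v) = ((x * y : ℝ) : ℂ) * (w * starRingEnd ℂ v) := by
        push_cast; ring
      rw [e, Complex.re_ofReal_mul]
    rw [this]
    ring
  have e2 : ‖v + w‖^2 = 2 + 2 * (w * starRingEnd ℂ v).re := by
    rw [add_comm, ← Complex.normSq_eq_norm_sq, Complex.normSq_add, Complex.normSq_eq_norm_sq w,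
      Complex.normSq_eq_norm_sq v, hv, hw]
    ring
  have e3 : (w * starRingEnd ℂ v).re ≤ 1 := by
    have := Complex.re_le_norm (w * starRingEnd ℂ v)
    rw [norm_mul, RCLike.norm_conj, hv, hw] at this
    linarith
  apply le_of_sq_le_sq _ (norm_nonneg _)
  rw [mul_pow, div_pow, e1, e2]
  nlinarith [sq_nonneg (x - y), mul_nonneg (sq_nonneg (x - y)) (sub_nonneg.mpr e3)]

lemma Cor.low (h : Cor γ v w δ α C) : ∃ ρ : ℝ, 0 < ρ ∧ ρ ≤ δ ∧ ∀ s σ : ℝ, 0 < s → s < ρ → 0 < σ → σ < ρ →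
    ‖v + w‖ / 4 * (s + σ) ≤ ‖γ (-σ) - γ s‖ := by
  have hvw : 0 < ‖v + w‖ := by
    rw [norm_pos_iff]
    intro h0
    exact h.nn (eq_neg_of_add_eq_zero_left h0)
  have o1 := (hasDerivWithinAt_iff_isLittleO.mp h.dr).def (show 0 < ‖v + w‖ / 4 by positivity)
  have o2 := (hasDerivWithinAt_iff_isLittleO.mp h.dl).def (show 0 < ‖v + w‖ / 4 by positivity)
  obtain ⟨r1, hr1, k1⟩ := Metric.mem_nhdsWithin_iff.mp o1
  obtain ⟨r2, hr2, k2⟩ := Metric.mem_nhdsWithin_iff.mp o2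
  refine ⟨min (min r1 r2) δ, lt_min (lt_min hr1 hr2) h.hpos, min_le_right _ _, ?_⟩
  intro s σ hs0 hs hσ0 hσ
  have a1 : s < r1 := hs.trans_le ((min_le_left _ _).trans (min_le_left _ _))
  have a2 : σ < r2 := hσ.trans_le ((min_le_left _ _).trans (min_le_right _ _))
  have b1 := k1 (a := s) ⟨by rw [Metric.mem_ball, Real.dist_eq, sub_zero, abs_of_pos hs0]; exact a1, hs0.le⟩
  have b2 := k2 (a := -σ) ⟨by rw [Metric.mem_ball, Real.dist_eq, sub_zero, abs_neg, abs_of_pos hσ0]; exact a2,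
    show -σ ≤ 0 by linarith⟩
  simp only [mem_setOf_eq, sub_zero, Real.norm_eq_abs, abs_neg, abs_of_pos hs0, abs_of_pos hσ0] at b1 b2
  have hl := sum_low h hs0 hσ0
  have e : (s : ℂ) * w + (σ : ℂ) * v = (γ s - γ 0) - (γ (-σ) - γ 0) - ((γ s - γ 0 - s • w)) +
      (γ (-σ) - γ 0 - (-σ) • v) := by
    rw [Complex.real_smul, Complex.real_smul]
    push_cast
    ring
  have e2 : ‖(s : ℂ) * w + (σ : ℂ) * v‖ ≤ ‖γ (-σ) - γ s‖ + ‖v + w‖ / 4 * s + ‖v + w‖ / 4 * σ := by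
    rw [e]
    refine (norm_add_le _ _).trans ?_
    refine add_le_add ((norm_sub_le _ _).trans (add_le_add (le_of_eq ?_) b1)) b2
    rw [← norm_neg]
    congr 1
    ring
  linarith

lemma t0 : Tendsto (fun m : ℕ => (8:ℝ)^m) atTop atTop := tendsto_pow_atTop_atTop_of_one_lt (by norm_num)

lemma seq_r (h : HasDerivWithinAt γ w (Ici 0) 0) (x : ℝ) (hx : 0 < x) :
    Tendsto (fun m : ℕ => (((8:ℝ)^m : ℝ) : ℂ) * (γ (x / 8^m) - γ 0)) atTop (𝓝 ((x : ℂ) * w)) := by
  have h1 := hasDerivWithinAt_iff_tendsto_slope.mp h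
  have h2 : Tendsto (fun m : ℕ => x / 8^m) atTop (𝓝[Ici 0 \ {0}] 0) := by
    rw [tendsto_nhdsWithin_iff]
    refine ⟨?_, Filter.Eventually.of_forall fun m => ?_⟩
    · exact tendsto_const_nhds.div_atTop t0
    · have : 0 < x / 8^m := by positivity
      exact ⟨this.le, this.ne'⟩
  have h3 := (h1.comp h2).const_mul (x : ℂ)
  refine h3.congr fun m => ?_
  simp only [Function.comp, slope_def_module, sub_zero]
  have hx' : (x : ℂ) ≠ 0 := by exact_mod_cast hx.ne'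
  have h8 : (((8:ℝ)^m : ℝ) : ℂ) ≠ 0 := by
    have : ((8:ℝ)^m) ≠ 0 := by positivity
    exact_mod_cast this
  rw [Complex.real_smul]
  push_cast
  field_simp

lemma seq_l (h : HasDerivWithinAt γ v (Iic 0) 0) (x : ℝ) (hx : 0 < x) :
    Tendsto (fun m : ℕ => (((8:ℝ)^m : ℝ) : ℂ) * (γ (-(x / 8^m)) - γ 0)) atTop (𝓝 (-((x : ℂ) * v))) := by
  have h1 := hasDerivWithinAt_iff_tendsto_slope.mp h
  have h2 : Tendsto (fun m : ℕ => -(x / 8^m)) atTop (𝓝[Iic 0 \ {0}] 0) := by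
    rw [tendsto_nhdsWithin_iff]
    refine ⟨?_, Filter.Eventually.of_forall fun m => ?_⟩
    · have : Tendsto (fun m : ℕ => x / 8^m) atTop (𝓝 0) := tendsto_const_nhds.div_atTop t0
      simpa using this.neg
    · have : 0 < x / 8^m := by positivity
      exact ⟨show -(x / 8^m) ≤ 0 by linarith, show -(x / 8^m) ≠ 0 by linarith⟩
  have h3 := (h1.comp h2).const_mul (-(x : ℂ))
  rw [neg_mul] at h3
  refine h3.congr fun m => ?_
  simp only [Function.comp, slope_def_module, sub_zero]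
  have hx' : (x : ℂ) ≠ 0 := by exact_mod_cast hx.ne'
  have h8 : (((8:ℝ)^m : ℝ) : ℂ) ≠ 0 := by
    have : ((8:ℝ)^m) ≠ 0 := by positivity
    exact_mod_cast this
  rw [Complex.real_smul]
  push_cast
  field_simp

lemma Cor.tr_seq (h : Cor γ v w δ α C) (x : ℝ) (hx : 0 < x) :
    Tendsto (fun m : ℕ => deriv γ (x / 8^m)) atTop (𝓝 w) := by
  apply h.tw.comp
  rw [tendsto_nhdsWithin_iff]
  refine ⟨tendsto_const_nhds.div_atTop t0, Filter.Eventually.of_forall fun m => ?_⟩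
  show 0 < x / 8^m
  positivity

lemma Cor.tl_seq (h : Cor γ v w δ α C) (x : ℝ) (hx : 0 < x) :
    Tendsto (fun m : ℕ => deriv γ (-(x / 8^m))) atTop (𝓝 v) := by
  apply h.tv.comp
  rw [tendsto_nhdsWithin_iff]
  refine ⟨?_, Filter.Eventually.of_forall fun m => ?_⟩
  · have : Tendsto (fun m : ℕ => x / 8^m) atTop (𝓝 0) := tendsto_const_nhds.div_atTop t0
    simpa using this.neg
  · show -(x / 8^m) < 0
    have : 0 < x / 8^m := by positivity
    linarith

lemma Cor.xh1 (h : Cor γ v w δ α C) : ∃ c ρ, 0 < ρ ∧ XH γ 1 w v c ρ := by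
  have hvw : 0 < ‖v + w‖ := by
    rw [norm_pos_iff]
    intro h0
    exact h.nn (eq_neg_of_add_eq_zero_left h0)
  obtain ⟨ρ, h1, -, h2⟩ := h.low
  refine ⟨‖v + w‖ / 4, ρ, h1, ⟨Or.inl rfl, h.right.lip, ?_, ?_, ?_, by positivity, ?_, ?_⟩⟩
  · intro x hx
    have := seq_r h.dr x hx
    simpa using this
  · intro x hx
    have := seq_l h.dl x hx
    simpa using this
  · intro x hx
    have := h.tl_seq x hx
    simpa using this
  · intro x y R hR hx hy hx1 hy1
    have := h2 (x / R) (y / R) (by positivity) hx1 (by positivity) hy1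
    rw [one_mul, one_mul]
    refine le_trans (le_of_eq ?_) this
    ring
  · intro x y hx hy
    exact den_ne h.hv h.hw h.nn hx hy

lemma Cor.xh2 (h : Cor γ v w δ α C) : ∃ c ρ, 0 < ρ ∧ XH γ (-1) v w c ρ := by
  have hvw : 0 < ‖v + w‖ := by
    rw [norm_pos_iff]
    intro h0
    exact h.nn (eq_neg_of_add_eq_zero_left h0)
  obtain ⟨ρ, h1, -, h2⟩ := h.low
  refine ⟨‖v + w‖ / 4, ρ, h1, ⟨Or.inr rfl, h.right.lip, ?_, ?_, ?_, by positivity, ?_, ?_⟩⟩
  · intro x hx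
    have := seq_l h.dl x hx
    refine (this.congr fun m => ?_).trans (le_of_eq ?_)
    · congr 3
      ring
    · congr 1
      push_cast
      ring
  · intro x hx
    have := seq_r h.dr x hx
    refine (this.congr fun m => ?_).trans (le_of_eq ?_)
    · congr 3
      ring
    · congr 1
      push_cast
      ring
  · intro x hx
    have := h.tr_seq x hx
    refine this.congr fun m => ?_
    congr 1
    ring
  · intro x y R hR hx hy hx1 hy1
    have := h2 (y / R) (x / R) (by positivity) hy1 (by positivity) hx1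
    rw [norm_sub_rev] at this
    have e1 : -(-1 * y / R) = y / R := by ring
    have e2 : -1 * x / R = -(x / R) := by ring
    rw [e1, e2]
    refine le_trans (le_of_eq ?_) this
    ring
  · intro x y hx hy
    rw [add_comm]
    exact den_ne h.hv h.hw h.nn hy hx

lemma ev_small {ρ : ℝ} (hρ : 0 < ρ) : ∀ᶠ m : ℕ in atTop, 1 / (8:ℝ)^m < ρ := by
  have : Tendsto (fun m : ℕ => 1 / (8:ℝ)^m) atTop (𝓝 0) := tendsto_const_nhds.div_atTop t0
  exact this.eventually (Iio_mem_nhds hρ)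

/-- the product form of `JJ` -/
lemma JJ_prod {v w : ℂ} (hv : ‖v‖ = 1) (hw : ‖w‖ = 1) (hn : v ≠ -w) {g η : ℝ → ℝ} (hg : Pf g) (hη : Pf η) :
    JJ v w g η = ∫ P : ℝ × ℝ, (g P.1 * η P.2) • (1 / ((P.1 : ℂ) * w + (P.2 : ℂ) * v)) ∂(nn.prod nn) ∧
    JJ v w g η = ∫ P : ℝ × ℝ, (η P.1 * g P.2) • (1 / ((P.1 : ℂ) * v + (P.2 : ℂ) * w)) ∂(nn.prod nn) := by
  have i3 := sq_int hg hη (fun p => 1 / ((p.1 : ℂ) * w + (p.2 : ℂ) * v))
      (ContinuousOn.div (by fun_prop) (by fun_prop) (fun p hp =>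
        den_ne hv hw hn (by linarith [hp.1.1]) (by linarith [hp.2.1])))
  have e1 : JJ v w g η = ∫ p : ℝ × ℝ, (g p.1 * η p.2) • (1 / ((p.1 : ℂ) * w + (p.2 : ℂ) * v)) ∂(volume.prod volume) := by
    rw [integral_prod _ i3]
    unfold JJ
    congr 1
    funext x
    rw [← integral_const_mul]
    congr 1
    funext y
    rw [Complex.real_smul]
    push_cast
    ring
  have e2 : ∫ P : ℝ × ℝ, (g P.1 * η P.2) • (1 / ((P.1 : ℂ) * w + (P.2 : ℂ) * v)) ∂(nn.prod nn) =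
      ∫ p : ℝ × ℝ, (g p.1 * η p.2) • (1 / ((p.1 : ℂ) * w + (p.2 : ℂ) * v)) ∂(volume.prod volume) := by
    rw [nn, Measure.prod_restrict]
    apply setIntegral_eq_integral_of_forall_compl_eq_zero
    intro p hp
    by_cases h1 : g p.1 = 0
    · rw [h1]; simp
    · by_cases h2 : η p.2 = 0
      · rw [h2]; simp
      · exact absurd ⟨hg.supp _ h1, hη.supp _ h2⟩ hp
  refine ⟨e1.trans e2.symm, e1.trans (e2.symm.trans ?_)⟩
  rw [← integral_prod_swap]
  congr 1
  funext p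
  simp only [Prod.fst_swap, Prod.snd_swap]
  rw [mul_comm (g p.2), add_comm ((p.2 : ℂ) * w)]

theorem t_x1 : S_x1 := by
  intro γ v w δ α C h g η hg hη S hS U V hU hV
  obtain ⟨c, ρ, hρ, hx⟩ := h.xh1
  have hl := (hx.lim_int hg hη (ev_small hρ)).const_mul (1 / ((Real.pi : ℂ) * Complex.I))
  have e : (1 / ((Real.pi : ℂ) * Complex.I)) *
      ∫ P : ℝ × ℝ, (g P.1 * η P.2) • (v / (-((1 : ℝ) : ℂ) * ((P.1:ℂ) * w + (P.2 : ℂ) * v))) ∂(nn.prod nn) =
      Complex.I * v * JJ v w g η / Real.pi := by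
    rw [(JJ_prod h.hv h.hw h.nn hg hη).1]
    have e1 : ∀ P : ℝ × ℝ, (g P.1 * η P.2) • (v / (-((1 : ℝ) : ℂ) * ((P.1:ℂ) * w + (P.2 : ℂ) * v))) =
        (-v) * ((g P.1 * η P.2) • (1 / ((P.1 : ℂ) * w + (P.2 : ℂ) * v))) := by
      intro P
      rw [Complex.real_smul, Complex.real_smul, Complex.ofReal_one, neg_one_mul, div_neg]
      ring
    simp_rw [e1]
    rw [integral_const_mul]
    generalize (∫ P : ℝ × ℝ, (g P.1 * η P.2) • (1 / ((P.1 : ℂ) * w + (P.2 : ℂ) * v)) ∂(nn.prod nn)) = Z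
    have hpi : (Real.pi : ℂ) ≠ 0 := by exact_mod_cast Real.pi_ne_zero
    have hI := Complex.I_ne_zero
    have hI2 : Complex.I ^ 2 = -1 := Complex.I_sq
    field_simp
    rw [hI2]
    ring
  rw [e] at hl
  refine hl.congr' ?_
  filter_upwards [ev_small hρ] with m hm
  symm
  apply hx.pairing hg hη hS (U m) (V m) hm
  · filter_upwards [hU m] with s hs
    rw [hs, one_mul]
  · filter_upwards [hV m] with s hs
    rw [hs, one_mul, neg_mul]

theorem t_x2 : S_x2 := by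
  intro γ v w δ α C h g η hg hη S hS U V hU hV
  obtain ⟨c, ρ, hρ, hx⟩ := h.xh2
  have hl := (hx.lim_int hη hg (ev_small hρ)).const_mul (1 / ((Real.pi : ℂ) * Complex.I))
  have e : (1 / ((Real.pi : ℂ) * Complex.I)) *
      ∫ P : ℝ × ℝ, (η P.1 * g P.2) • (w / (-((-1 : ℝ) : ℂ) * ((P.1:ℂ) * v + (P.2 : ℂ) * w))) ∂(nn.prod nn) =
      -(Complex.I * w * JJ v w g η) / Real.pi := by
    rw [(JJ_prod h.hv h.hw h.nn hg hη).2]
    have e1 : ∀ P : ℝ × ℝ, (η P.1 * g P.2) • (w / (-((-1 : ℝ) : ℂ) * ((P.1:ℂ) * v + (P.2 : ℂ) * w))) =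
        w * ((η P.1 * g P.2) • (1 / ((P.1 : ℂ) * v + (P.2 : ℂ) * w))) := by
      intro P
      rw [Complex.real_smul, Complex.real_smul, Complex.ofReal_neg, Complex.ofReal_one, neg_neg, one_mul]
      ring
    simp_rw [e1]
    rw [integral_const_mul]
    generalize (∫ P : ℝ × ℝ, (η P.1 * g P.2) • (1 / ((P.1 : ℂ) * v + (P.2 : ℂ) * w)) ∂(nn.prod nn)) = Z
    have hpi : (Real.pi : ℂ) ≠ 0 := by exact_mod_cast Real.pi_ne_zero
    have hI := Complex.I_ne_zero
    have hI2 : Complex.I ^ 2 = -1 := Complex.I_sq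
    field_simp
    rw [hI2]
    ring
  rw [e] at hl
  refine hl.congr' ?_
  filter_upwards [ev_small hρ] with m hm
  symm
  apply hx.pairing hη hg hS (V m) (U m) hm
  · filter_upwards [hV m] with s hs
    rw [hs, neg_one_mul, neg_mul]
  · filter_upwards [hU m] with s hs
    rw [hs, neg_one_mul, neg_neg]

end Pool.Agent.Y664.CR
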