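import Mathlib
import Pool.Agent.Y664.CR.X2
import Pool.Agent.Y664.CR.Alg
import Pool.Agent.Y664.CR.Ker
import Pool.Agent.Y664.CR.Diag
import Pool.Agent.Y664.CR.Dom
import Pool.Agent.Y664.CR.Main

set_option autoImplicit false
open MeasureTheory Filter Topology Set
open Pool.Agent.Helper49.Sq.Core
open Pool.Agent.Helper49.Sq.Test2 Pool.Agent.Helper49.Sq.Test3 Pool.Agent.Helper49.Sq.Test4
open Pool.Agent.Helper49.Sq.Test6
open Pool.Agent.Helper49.Sq.Defs (mu truncCauchy IsPC Condition3)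

namespace Pool.Agent.Y664.CR

lemma lip_scaleR {u : ℝ → ℝ} (hu : Pf u) (a : ℝ) : ∃ K, LipschitzWith K (fun s : ℝ => u (a * s)) := by
  obtain ⟨K, hK⟩ := hu.lip
  refine ⟨K * Real.toNNReal |a|, ?_⟩
  have h1 : LipschitzWith (Real.toNNReal |a|) (fun s : ℝ => a * s) := by
    apply LipschitzWith.of_dist_le_mul
    intro x y
    rw [Real.dist_eq, Real.dist_eq, ← mul_sub, abs_mul, Real.coe_toNNReal _ (abs_nonneg _)]
  exact hK.comp h1

lemma bd_lim (G C α : ℝ) (hα : 0 < α) : Tendsto (fun m : ℕ => Rm m *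
    (G ^ 2 * C * (6 / (8 * Rm m)) * (6 / (8 * Rm m)) ^ α / α)) atTop (𝓝 0) := by
  have e : ∀ m : ℕ, Rm m * (G ^ 2 * C * (6 / (8 * Rm m)) * (6 / (8 * Rm m)) ^ α / α) =
      (G ^ 2 * C * (6 / 8) / α) * (6 / (8 * Rm m)) ^ α := by
    intro m
    have := (Rm_pos m).ne'
    field_simp
  simp_rw [e]
  have h1 : Tendsto (fun m : ℕ => 6 / (8 * Rm m)) atTop (𝓝 0) := by
    apply tendsto_const_nhds.div_atTop
    have hR : Tendsto Rm atTop atTop := tendsto_pow_atTop_atTop_of_one_lt (by norm_num)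
    exact hR.const_mul_atTop (by norm_num)
  have h2 := (h1.rpow_const (Or.inr hα.le)).const_mul (G ^ 2 * C * (6 / 8) / α)
  rw [Real.zero_rpow hα.ne', mul_zero] at h2
  exact h2

lemma ev_leg {δ : ℝ} (hδ : 0 < δ) : ∀ᶠ m : ℕ in atTop, 7 / (8 * Rm m) < δ := by
  have h1 : Tendsto (fun m : ℕ => 7 / (8 * Rm m)) atTop (𝓝 0) := by
    apply tendsto_const_nhds.div_atTop
    have hR : Tendsto Rm atTop atTop := tendsto_pow_atTop_atTop_of_one_lt (by norm_num)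
    exact hR.const_mul_atTop (by norm_num)
  exact h1.eventually (Iio_mem_nhds hδ)

theorem diag_g {γ : ℝ → ℂ} {δ α C : ℝ} (hL : Leg γ 0 δ α C) {S : L2 →L[ℂ] L2} (hS : IsCauchyOp γ S)
    {u : ℝ → ℝ} (hu : Prof u) :
    Tendsto (fun m => ((Rm m : ℝ) : ℂ) * (inner ℂ (Ug hu (Rm m)) (S (Ug hu (Rm m))) : ℂ)) atTop (𝓝 0) := by
  obtain ⟨G, hG0, hG⟩ := (Prof.pf hu).bdd
  apply squeeze_zero_norm' _ (bd_lim G C α hL.hα)
  filter_upwards [ev_leg hL.hab] with m hm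
  have hR := Rm_pos m
  have hR1 := Rm_one_le m
  obtain ⟨K, hK⟩ := lip_scaleR (Prof.pf hu) (Rm m)
  have h := t_diag (t_dom t_ker) (t_fub t_ker) γ 0 δ α C hL (fun s => u (Rm m * s)) K G hK (fun x => hG _)
    (1 / (8 * Rm m)) (7 / (8 * Rm m)) (by positivity) (by
      apply div_lt_div_of_pos_right _ (by positivity); norm_num) hm (fun s hs => by
      have hs' : fg u (Rm m) s ≠ 0 := by unfold fg; exact_mod_cast hs
      exact supp_fg hu hR1 hs') S hS (Ug hu (Rm m)) (Ug_coe hu (Rm m))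
  have e : 7 / (8 * Rm m) - 1 / (8 * Rm m) = 6 / (8 * Rm m) := by
    rw [← sub_div]; norm_num
  rw [e] at h
  rw [norm_mul, Complex.norm_real, Real.norm_eq_abs, abs_of_pos hR]
  exact mul_le_mul_of_nonneg_left h hR.le

theorem diag_h {γ : ℝ → ℂ} {δ α C : ℝ} (hL : Leg γ (-δ) 0 α C) {S : L2 →L[ℂ] L2} (hS : IsCauchyOp γ S)
    {u : ℝ → ℝ} (hu : Prof u) :
    Tendsto (fun m => ((Rm m : ℝ) : ℂ) * (inner ℂ (Uh hu (Rm m)) (S (Uh hu (Rm m))) : ℂ)) atTop (𝓝 0) := by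
  obtain ⟨G, hG0, hG⟩ := (Prof.pf hu).bdd
  have hδ : 0 < δ := by linarith [hL.hab]
  apply squeeze_zero_norm' _ (bd_lim G C α hL.hα)
  filter_upwards [ev_leg hδ] with m hm
  have hR := Rm_pos m
  have hR1 := Rm_one_le m
  obtain ⟨K, hK⟩ := lip_scaleR (Prof.pf hu) (-(Rm m))
  have hK' : LipschitzWith K (fun s => u (-(Rm m * s))) := by
    simpa using hK
  have h1 : 0 < 1 / (8 * Rm m) := by positivity
  have h := t_diag (t_dom t_ker) (t_fub t_ker) γ (-δ) 0 α C hL (fun s => u (-(Rm m * s))) K G hK' (fun x => hG _)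
    (-(7 / (8 * Rm m))) (-(1 / (8 * Rm m))) (by linarith) (by
      apply neg_lt_neg
      apply div_lt_div_of_pos_right _ (by positivity); norm_num) (by linarith) (fun s hs => by
      have hs' : fh u (Rm m) s ≠ 0 := by unfold fh; exact_mod_cast hs
      have := supp_fh hu hR1 hs'
      exact ⟨by linarith [this.2], by linarith [this.1]⟩) S hS (Uh hu (Rm m)) (Uh_coe hu (Rm m))
  have e : -(1 / (8 * Rm m)) - -(7 / (8 * Rm m)) = 6 / (8 * Rm m) := by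
    rw [neg_sub_neg, ← sub_div]; norm_num
  rw [e] at h
  rw [norm_mul, Complex.norm_real, Real.norm_eq_abs, abs_of_pos hR]
  exact mul_le_mul_of_nonneg_left h hR.le

/-- The main theorem for operators on `L2`. -/
theorem not_theta (v w : ℂ) (hv : ‖v‖ = 1) (hw : ‖w‖ = 1) (hne : v ≠ w) (hnn : v ≠ -w) :
    ∃ ε0 : ℝ, 0 < ε0 ∧ ∀ (γ : ℝ → ℂ) (δ α C : ℝ), Cor γ v w δ α C → ∀ S : L2 →L[ℂ] L2, IsCauchyOp γ S →
      ∀ ε : ℝ, 0 < ε → ε < ε0 → ∀ A : L2 →L[ℂ] L2,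
      (∀ F, A F = (-(ε : ℂ) * Complex.I) • F + S F) → ¬ ThetaStronglyElliptic A := by
  have g1 : Prof (tent (3/4)) := tent_prof (by norm_num) (by norm_num)
  have g2 : Prof (tent (1/4)) := tent_prof (by norm_num) (by norm_num)
  obtain ⟨N, hN⟩ : ∃ N, N = NN (tent 0) := ⟨_, rfl⟩
  have hN1 : NN (tent (3/4)) = N := by rw [hN]; exact NN_tent _
  have hN2 : NN (tent (1/4)) = N := by rw [hN]; exact NN_tent _
  have hN0 : 0 < N := by rw [hN]; exact NN_pos 0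
  obtain ⟨⟨k, hk, hJ1⟩, A0, B0, hJ2, hAB⟩ := t_int v w hv hw hnn (tent (3/4)) (tent (1/4)) (Prof.pf g1) (Prof.pf g2)
    (tent_nonneg _) (tent_nonneg _) (tent_ex _) (tent_ex _)
  have hAB' : B0 < A0 := hAB (fun x y hx hy => by
    have h1 := tent_ne hx
    have h2 := tent_ne hy
    linarith [h1.1, h2.2])
  have hpi := Real.pi_pos
  have hden : 0 < Real.pi * N * (1 + |(A0 + B0) / 2| / k) := by positivity
  have hvw : 0 < ‖v - w‖ := norm_pos_iff.mpr (sub_ne_zero.mpr hne)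
  have hAB2 : 0 < (A0 - B0) / 2 := by linarith
  refine ⟨(A0 - B0) / 2 * ‖v - w‖ / (Real.pi * N * (1 + |(A0 + B0) / 2| / k)), by positivity, ?_⟩
  intro γ δ α C hC S hS ε hε hε0 A hA hθ
  obtain ⟨θ, hPC, -, -, Mθ, hM, D, T, hDT, ⟨κ, hκ0, hκ⟩, hT⟩ := hθ
  set B : L2 →L[ℂ] L2 := Mθ ∘L A with hBdef
  have hB : ∀ f : L2, (B f : ℝ → ℂ) =ᵐ[mu] fun s => θ s * (A f : ℝ → ℂ) s := fun f => hM (A f)
  obtain ⟨-, -, hlim⟩ := hPC
  obtain ⟨⟨tp, htp⟩, ⟨tm, htm⟩⟩ := hlim 0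
  have key : ∀ (g η : ℝ → ℝ) (hg : Prof g) (hη : Prof η), 0 < NN g → 0 < NN η →
      0 < tp.im ∧ 0 < tm.im ∧
      ‖(tp * (Complex.I * v * JJ v w g η) + starRingEnd ℂ (tm * (-(Complex.I * w * JJ v w g η)))) / Real.pi‖ ^ 2
        ≤ 4 * (ε * tp.im * NN g) * (ε * tm.im * NN η) := by
    intro g η hg hη hNg hNη
    have a3 := t_x1 γ v w δ α C hC g η (Prof.pf hg) (Prof.pf hη) S hS (fun m => Ug hg (Rm m)) (fun m => Uh hη (Rm m))
      (fun m => Ug_coe hg (Rm m)) (fun m => Uh_coe hη (Rm m))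
    have a4 := t_x2 γ v w δ α C hC g η (Prof.pf hg) (Prof.pf hη) S hS (fun m => Ug hg (Rm m)) (fun m => Uh hη (Rm m))
      (fun m => Ug_coe hg (Rm m)) (fun m => Uh_coe hη (Rm m))
    have := pair_bound (ε := ε) (tp := tp) (tm := tm) (Ng := NN g) (Nη := NN η) hκ0 hε hNg hNη
      (main_ineq ε A hA θ tp tm htp htm B hB D T hDT κ hκ hT hg hη hNg hNη _ _
        (diag_g hC.right hS hg) (diag_h hC.left hS hη) a3 a4)
    refine ⟨this.1, this.2.1, ?_⟩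
    refine le_trans (le_of_eq ?_) this.2.2
    congr 2
    rw [map_mul, map_mul, map_div₀, Complex.conj_ofReal]
    ring
  obtain ⟨hp, hq, i1⟩ := key (tent (3/4)) (tent (3/4)) g1 g1 (NN_pos _) (NN_pos _)
  obtain ⟨-, -, i2⟩ := key (tent (3/4)) (tent (1/4)) g1 g2 (NN_pos _) (NN_pos _)
  rw [hN1] at i1
  rw [hN1, hN2] at i2
  have hfin := t_alg tp tm v w _ _ ε N k A0 B0 hε hN0 hk hAB' hv hw hne hnn hJ1 hJ2 hp hq i1 i2
  rw [lt_div_iff₀ hden] at hε0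
  linarith

end Pool.Agent.Y664.CR
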