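import Mathlib
import Pool.Agent.Y664.CR.Fin

/-!
# Simple closed curves with corners
-/

set_option autoImplicit false
open MeasureTheory Filter Topology Set

namespace Pool.Agent.Y664.CR

/-- `s` is one of the break points, modulo the period. -/
def Brk (P : Finset ℝ) (s : ℝ) : Prop := ∃ p ∈ P, ∃ n : ℤ, s = p + 4 * n

/-- `γ` is the arc length parametrization, of period 4, of a simple closed curve of length 4 which
consists of finitely many Lyapunov arcs: `γ` is 1-Lipschitz, injective on a period, and outside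
finitely many break points (modulo the period) it is differentiable, with a derivative of
modulus one, which is Hölder continuous, with one exponent `α > 0` and one constant, on
every interval without break points. -/
structure IsCornerCurve (γ : ℝ → ℂ) : Prop where
  periodic : Function.Periodic γ 4
  lip : LipschitzWith 1 γ
  simple : InjOn γ (Ico (-2 : ℝ) 2)
  arcs : ∃ (P : Finset ℝ) (α C : ℝ), 0 < α ∧ 0 ≤ C ∧
    (∀ s, ¬ Brk P s → DifferentiableAt ℝ γ s ∧ ‖deriv γ s‖ = 1) ∧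
    (∀ s t, s ≤ t → (∀ x ∈ Icc s t, ¬ Brk P x) → ‖deriv γ t - deriv γ s‖ ≤ C * (t - s) ^ α)

/-- The point with parameter `0` is a corner of the curve: the one-sided tangents `v` (before the
point) and `w` (after the point) are different and not opposite (no cusp). -/
structure HasCorner (γ : ℝ → ℂ) (v w : ℂ) : Prop where
  before : Tendsto (deriv γ) (𝓝[<] 0) (𝓝 v)
  after : Tendsto (deriv γ) (𝓝[>] 0) (𝓝 w)
  ne : v ≠ w
  nn : v ≠ -w

lemma brk_near (P : Finset ℝ) : ∀ᶠ δ in 𝓝[>] (0 : ℝ), ∀ s : ℝ, s ≠ 0 → |s| < δ → ¬ Brk P s := by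
  have h1 : ∀ p ∈ P, ∀ᶠ δ in 𝓝[>] (0 : ℝ), ∀ s : ℝ, s ≠ 0 → |s| < δ → ∀ n : ℤ, s ≠ p + 4 * n := by
    intro p _
    by_cases h : ∃ n : ℤ, |p + 4 * n| < 1 ∧ p + 4 * n ≠ 0
    · obtain ⟨n, hn1, hn2⟩ := h
      have hpos : 0 < |p + 4 * n| := abs_pos.mpr hn2
      filter_upwards [mem_nhdsWithin_of_mem_nhds (Iio_mem_nhds hpos)] with δ hδ s _ hs m hm
      have hδ' : δ < |p + 4 * n| := hδ
      have e : m = n := by
        by_contra hne
        have h2 : 1 ≤ |(m - n : ℤ)| := Int.one_le_abs (sub_ne_zero.mpr hne)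
        have h3 : (1 : ℝ) ≤ |((m : ℝ) - n)| := by exact_mod_cast h2
        have h4 : s - (p + 4 * n) = 4 * ((m : ℝ) - n) := by rw [hm]; ring
        have h5 : |s - (p + 4 * n)| < 2 := by
          refine (abs_sub _ _).trans_lt ?_
          linarith
        rw [h4, abs_mul] at h5
        have h6 : |(4 : ℝ)| = 4 := by norm_num
        rw [h6] at h5
        linarith
      rw [e] at hm
      rw [hm] at hs
      linarith
    · filter_upwards [mem_nhdsWithin_of_mem_nhds (Iio_mem_nhds (show (0 : ℝ) < 1 by norm_num))] with δ hδ s hs0 hs m hm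
      have hδ' : δ < 1 := hδ
      exact h ⟨m, by rw [← hm]; linarith, by rw [← hm]; exact hs0⟩
  have h2 := (Filter.eventually_all_finset P).mpr h1
  filter_upwards [h2] with δ hδ s hs0 hs hB
  obtain ⟨p, hp, n, hn⟩ := hB
  exact hδ p hp s hs0 hs n hn

lemma IsCornerCurve.cor {γ : ℝ → ℂ} (h : IsCornerCurve γ) {v w : ℂ} (hc : HasCorner γ v w) :
    (‖v‖ = 1 ∧ ‖w‖ = 1) ∧ ∃ δ α C : ℝ, Cor γ v w δ α C := by
  obtain ⟨P, α, C, hα, hC, hd, hh⟩ := h.arcs
  have h1 := brk_near P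
  have h2 : ∀ᶠ δ in 𝓝[>] (0 : ℝ), C * δ ^ α ≤ 1 / 2 := by
    have h3 : Tendsto (fun δ : ℝ => C * δ ^ α) (𝓝 0) (𝓝 (C * 0 ^ α)) :=
      ((Real.continuousAt_rpow_const 0 α (Or.inr hα.le)).tendsto).const_mul C
    rw [Real.zero_rpow hα.ne', mul_zero] at h3
    have h4 := h3.eventually (Iio_mem_nhds (show (0 : ℝ) < 1 / 2 by norm_num))
    filter_upwards [mem_nhdsWithin_of_mem_nhds h4] with δ hδ
    exact le_of_lt hδ
  have h3 : ∀ᶠ δ in 𝓝[>] (0 : ℝ), δ < 2 :=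
    mem_nhdsWithin_of_mem_nhds (Iio_mem_nhds (by norm_num))
  obtain ⟨δ, ⟨⟨k1, k2⟩, k3⟩, k4⟩ := (((h1.and h2).and h3).and self_mem_nhdsWithin).exists
  have hδ : 0 < δ := k4
  have nbr : ∀ s, 0 < s → s < δ → ¬ Brk P s := fun s a b => k1 s a.ne' (by rw [abs_of_pos a]; exact b)
  have nbl : ∀ s, s < 0 → -δ < s → ¬ Brk P s := fun s a b => k1 s a.ne (by rw [abs_of_neg a]; linarith)
  have hr : Leg γ 0 δ α C := by
    refine ⟨hδ, by norm_num, k3.le, hα, hC, by rw [sub_zero]; exact k2, h.lip,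
      fun s hs => (hd s (nbr s hs.1 hs.2)).1, fun s hs => (hd s (nbr s hs.1 hs.2)).2, ?_⟩
    intro s hs t ht
    rcases le_total s t with hst | hst
    · rw [abs_of_nonneg (by linarith)]
      exact hh s t hst fun x hx => nbr x (hs.1.trans_le hx.1) (hx.2.trans_lt ht.2)
    · rw [norm_sub_rev, abs_of_nonpos (by linarith), neg_sub]
      exact hh t s hst fun x hx => nbr x (ht.1.trans_le hx.1) (hx.2.trans_lt hs.2)
  have hl : Leg γ (-δ) 0 α C := by
    refine ⟨by linarith, by linarith, by norm_num, hα, hC, by rw [zero_sub, neg_neg]; exact k2, h.lip,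
      fun s hs => (hd s (nbl s hs.2 hs.1)).1, fun s hs => (hd s (nbl s hs.2 hs.1)).2, ?_⟩
    intro s hs t ht
    rcases le_total s t with hst | hst
    · rw [abs_of_nonneg (by linarith)]
      exact hh s t hst fun x hx => nbl x (hx.2.trans_lt ht.2) (hs.1.trans_le hx.1)
    · rw [norm_sub_rev, abs_of_nonpos (by linarith), neg_sub]
      exact hh t s hst fun x hx => nbl x (hx.2.trans_lt hs.2) (ht.1.trans_le hx.1)
  have hv : ‖v‖ = 1 := by
    have h5 := hc.before.norm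
    refine tendsto_nhds_unique h5 ?_
    apply tendsto_const_nhds.congr'
    filter_upwards [Ioo_mem_nhdsLT (show -δ < 0 by linarith)] with s hs
    exact (hl.unit s hs).symm
  have hw : ‖w‖ = 1 := by
    have h5 := hc.after.norm
    refine tendsto_nhds_unique h5 ?_
    apply tendsto_const_nhds.congr'
    filter_upwards [Ioo_mem_nhdsGT hδ] with s hs
    exact (hr.unit s hs).symm
  exact ⟨⟨hv, hw⟩, δ, α, C, hl, hr, hc.before, hc.after, hv, hw, hc.ne, hc.nn⟩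

/-! ## the unit square -/

open Pool.Agent.Helper49.Sq.Defs (IsUnitSquare)

variable {γ : ℝ → ℂ}

lemma sq_aff (h : IsUnitSquare γ) (k : ℤ) : ∃ a d : ℂ, ‖d‖ = 1 ∧
    ∀ x ∈ Icc (k : ℝ) (k + 1), γ x = a + x • d := by
  obtain ⟨n, r, hr1, hr2, hk⟩ : ∃ n r : ℤ, -2 ≤ r ∧ r ≤ 1 ∧ k = r + 4 * n :=
    ⟨(k + 2) / 4, k - 4 * ((k + 2) / 4), by omega, by omega, by omega⟩
  have hper : ∀ x : ℝ, γ x = γ (x - 4 * n) := by
    intro x
    have := h.periodic.sub_int_mul_eq (x := x) n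
    rw [mul_comm] at this
    exact this.symm
  have hkr : (k : ℝ) = r + 4 * n := by rw [hk]; push_cast; ring
  have hrr : r = -2 ∨ r = -1 ∨ r = 0 ∨ r = 1 := by omega
  rcases hrr with h0 | h0 | h0 | h0
  · refine ⟨((-1 + 4 * n : ℝ) : ℂ) + Complex.I, -1, by simp, fun x hx => ?_⟩
    rw [hkr, h0] at hx
    push_cast at hx
    rw [hper x, h.top _ ⟨by linarith [hx.1], by linarith [hx.2]⟩, Complex.real_smul]
    push_cast
    ring
  · refine ⟨((4 * n : ℝ) : ℂ) * Complex.I, -Complex.I, by simp, fun x hx => ?_⟩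
    rw [hkr, h0] at hx
    push_cast at hx
    rw [hper x, h.left _ ⟨by linarith [hx.1], by linarith [hx.2]⟩, Complex.real_smul]
    push_cast
    ring
  · refine ⟨((-(4 * n) : ℝ) : ℂ), 1, by simp, fun x hx => ?_⟩
    rw [hkr, h0] at hx
    push_cast at hx
    rw [hper x, h.bottom _ ⟨by linarith [hx.1], by linarith [hx.2]⟩, Complex.real_smul]
    push_cast
    ring
  · refine ⟨1 + ((-(4 * n) - 1 : ℝ) : ℂ) * Complex.I, Complex.I, by simp, fun x hx => ?_⟩
    rw [hkr, h0] at hx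
    push_cast at hx
    rw [hper x, h.right _ ⟨by linarith [hx.1], by linarith [hx.2]⟩, Complex.real_smul]
    push_cast
    ring

lemma aff_deriv (a d : ℂ) (x : ℝ) : HasDerivAt (fun y : ℝ => a + y • d) d x := by
  have h2 : HasDerivAt (fun x : ℝ => x • d) ((1 : ℝ) • d) x := (hasDerivAt_id x).smul_const d
  rw [one_smul] at h2
  exact h2.const_add a

lemma sq_right (h : IsUnitSquare γ) (x : ℝ) : ∃ d : ℂ, ‖d‖ = 1 ∧ HasDerivWithinAt γ d (Ici x) x := by
  obtain ⟨a, d, hd, hf⟩ := sq_aff h ⌊x⌋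
  refine ⟨d, hd, ?_⟩
  have h1 := Int.floor_le x
  have h2 := Int.lt_floor_add_one x
  refine ((aff_deriv a d x).hasDerivWithinAt).congr_of_eventuallyEq ?_ (hf x ⟨h1, h2.le⟩)
  filter_upwards [Icc_mem_nhdsGE h2] with y hy
  exact hf y ⟨h1.trans hy.1, hy.2⟩

lemma sq_left (h : IsUnitSquare γ) (x : ℝ) : ContinuousWithinAt γ (Iic x) x := by
  obtain ⟨a, d, hd, hf⟩ := sq_aff h (⌈x⌉ - 1)
  have h1 := Int.le_ceil x
  have h2 := Int.ceil_lt_add_one x
  have e1 : (((⌈x⌉ - 1 : ℤ) : ℝ)) < x := by push_cast; linarith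
  have e2 : x ≤ (((⌈x⌉ - 1 : ℤ) : ℝ)) + 1 := by push_cast; linarith
  have h3 : ContinuousWithinAt (fun y : ℝ => a + y • d) (Iic x) x :=
    (aff_deriv a d x).continuousAt.continuousWithinAt
  refine h3.congr_of_eventuallyEq ?_ (hf x ⟨e1.le, e2⟩)
  filter_upwards [Icc_mem_nhdsLE e1] with y hy
  exact hf y ⟨hy.1, hy.2.trans e2⟩

lemma sq_cont (h : IsUnitSquare γ) : Continuous γ := by
  rw [continuous_iff_continuousAt]
  intro x
  rw [continuousAt_iff_continuous_left_right]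
  obtain ⟨d, -, hd⟩ := sq_right h x
  exact ⟨sq_left h x, hd.continuousWithinAt⟩

lemma sq_lip (h : IsUnitSquare γ) : LipschitzWith 1 γ := by
  have key : ∀ a b : ℝ, a ≤ b → ‖γ b - γ a‖ ≤ 1 * (b - a) := by
    intro a b hab
    choose d hd1 hd2 using fun x => sq_right h x
    exact norm_image_sub_le_of_norm_deriv_right_le_segment (f' := d) (sq_cont h).continuousOn
      (fun x _ => hd2 x) (fun x _ => (hd1 x).le) b ⟨hab, le_refl _⟩
  apply LipschitzWith.of_dist_le_mul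
  intro x y
  rw [dist_eq_norm, Real.dist_eq]
  rcases le_total x y with hxy | hxy
  · rw [norm_sub_rev, abs_sub_comm, abs_of_nonneg (by linarith)]
    simpa using key x y hxy
  · rw [abs_of_nonneg (by linarith)]
    simpa using key y x hxy

lemma sq_coord (h : IsUnitSquare γ) (x : ℝ) (hx : x ∈ Ico (-2 : ℝ) 2) :
    (-2 ≤ x ∧ x < -1 ∧ (γ x).re = -1 - x ∧ (γ x).im = 1) ∨ (-1 ≤ x ∧ x < 0 ∧ (γ x).re = 0 ∧ (γ x).im = -x) ∨
    (0 ≤ x ∧ x < 1 ∧ (γ x).re = x ∧ (γ x).im = 0) ∨ (1 ≤ x ∧ x < 2 ∧ (γ x).re = 1 ∧ (γ x).im = x - 1) := by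
  rcases lt_or_ge x (-1) with h1 | h1
  · left
    refine ⟨hx.1, h1, ?_, ?_⟩
    · rw [h.top x ⟨hx.1, h1.le⟩]; simp
    · rw [h.top x ⟨hx.1, h1.le⟩]; simp
  rcases lt_or_ge x 0 with h2 | h2
  · right; left
    refine ⟨h1, h2, ?_, ?_⟩
    · rw [h.left x ⟨h1, h2.le⟩]; simp
    · rw [h.left x ⟨h1, h2.le⟩]; simp
  rcases lt_or_ge x 1 with h3 | h3
  · right; right; left
    refine ⟨h2, h3, ?_, ?_⟩
    · rw [h.bottom x ⟨h2, h3.le⟩]; simp
    · rw [h.bottom x ⟨h2, h3.le⟩]; simp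
  · right; right; right
    refine ⟨h3, hx.2, ?_, ?_⟩
    · rw [h.right x ⟨h3, hx.2.le⟩]; simp
    · rw [h.right x ⟨h3, hx.2.le⟩]; simp

lemma sq_inj (h : IsUnitSquare γ) : InjOn γ (Ico (-2 : ℝ) 2) := by
  intro x hx y hy hxy
  have e1 : (γ x).re = (γ y).re := by rw [hxy]
  have e2 : (γ x).im = (γ y).im := by rw [hxy]
  rcases sq_coord h x hx with ⟨a1, a2, a3, a4⟩ | ⟨a1, a2, a3, a4⟩ | ⟨a1, a2, a3, a4⟩ | ⟨a1, a2, a3, a4⟩ <;>
  rcases sq_coord h y hy with ⟨b1, b2, b3, b4⟩ | ⟨b1, b2, b3, b4⟩ | ⟨b1, b2, b3, b4⟩ | ⟨b1, b2, b3, b4⟩ <;>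
  rw [a3, b3] at e1 <;> rw [a4, b4] at e2 <;> linarith

lemma sq_der (h : IsUnitSquare γ) (k : ℤ) : ∃ d : ℂ, ‖d‖ = 1 ∧
    ∀ x ∈ Ioo (k : ℝ) (k + 1), HasDerivAt γ d x := by
  obtain ⟨a, d, hd, hf⟩ := sq_aff h k
  refine ⟨d, hd, fun x hx => ?_⟩
  refine (aff_deriv a d x).congr_of_eventuallyEq ?_
  filter_upwards [Ioo_mem_nhds hx.1 hx.2] with y hy
  exact hf y ⟨hy.1.le, hy.2.le⟩

lemma brk_int (k : ℤ) : Brk ({-2, -1, 0, 1} : Finset ℝ) (k : ℝ) := by
  obtain ⟨n, r, hr1, hr2, hk⟩ : ∃ n r : ℤ, -2 ≤ r ∧ r ≤ 1 ∧ k = r + 4 * n :=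
    ⟨(k + 2) / 4, k - 4 * ((k + 2) / 4), by omega, by omega, by omega⟩
  refine ⟨(r : ℝ), ?_, n, by rw [hk]; push_cast; ring⟩
  have hrr : r = -2 ∨ r = -1 ∨ r = 0 ∨ r = 1 := by omega
  rcases hrr with h0 | h0 | h0 | h0 <;> rw [h0] <;> simp

lemma IsUnitSquare.curve (h : IsUnitSquare γ) : IsCornerCurve γ := by
  refine ⟨h.periodic, sq_lip h, sq_inj h, {-2, -1, 0, 1}, 1, 0, one_pos, le_refl _, ?_, ?_⟩
  · intro s hs
    obtain ⟨d, hd, hf⟩ := sq_der h ⌊s⌋
    have h1 : (⌊s⌋ : ℝ) < s := lt_of_le_of_ne (Int.floor_le s) (fun e => hs (by rw [← e]; exact brk_int _))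
    have h2 := hf s ⟨h1, Int.lt_floor_add_one s⟩
    exact ⟨h2.differentiableAt, by rw [h2.deriv]; exact hd⟩
  · intro s t hst hx
    obtain ⟨d, hd, hf⟩ := sq_der h ⌊s⌋
    have h1 : (⌊s⌋ : ℝ) < s := lt_of_le_of_ne (Int.floor_le s) (fun e =>
      hx s ⟨le_refl _, hst⟩ (by rw [← e]; exact brk_int _))
    have h3 : t < ⌊s⌋ + 1 := by
      by_contra h4
      rw [not_lt] at h4
      have h5 := Int.lt_floor_add_one s
      have h6 := brk_int (⌊s⌋ + 1)
      push_cast at h6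
      exact hx _ ⟨h5.le, h4⟩ h6
    have h2 := hf s ⟨h1, Int.lt_floor_add_one s⟩
    have h4 := hf t ⟨by linarith, h3⟩
    rw [h2.deriv, h4.deriv]
    simp

lemma IsUnitSquare.corner (h : IsUnitSquare γ) : HasCorner γ (-Complex.I) 1 := by
  refine ⟨?_, ?_, ?_, ?_⟩
  · apply tendsto_const_nhds.congr'
    filter_upwards [Ioo_mem_nhdsLT (show (-1 : ℝ) < 0 by norm_num)] with s hs
    symm
    apply HasDerivAt.deriv
    refine (aff_deriv 0 (-Complex.I) s).congr_of_eventuallyEq ?_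
    filter_upwards [Ioo_mem_nhds hs.1 hs.2] with y hy
    rw [h.left y ⟨hy.1.le, hy.2.le⟩, Complex.real_smul]
    push_cast
    ring
  · apply tendsto_const_nhds.congr'
    filter_upwards [Ioo_mem_nhdsGT (show (0 : ℝ) < 1 by norm_num)] with s hs
    symm
    apply HasDerivAt.deriv
    refine (aff_deriv 0 1 s).congr_of_eventuallyEq ?_
    filter_upwards [Ioo_mem_nhds hs.1 hs.2] with y hy
    rw [h.bottom y ⟨hy.1.le, hy.2.le⟩, Complex.real_smul]
    ring
  · intro e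
    have := congrArg Complex.re e
    simp at this
  · intro e
    have := congrArg Complex.re e
    simp at this

end Pool.Agent.Y664.CR
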